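import Mathlib

/-!
# No totally ramified `(ℤ/ℓ)²`-extension of `ℚ_ℓ`, `ℓ` odd: the valuation argument

Abstract form: `R` is a valuation ring with an action of a group `G` of order `ℓ²` and exponent `ℓ`.
-/

set_option autoImplicit false

namespace Pool.Agent.H71.KW

open Finset

/-- `∑_{j<n} T^j = ∑_{i<n} C(n,i+1) (T-1)^i`. -/
theorem hockey {E : Type*} [Ring E] (T : E) (n : ℕ) :
    ∑ j ∈ range n, T ^ j = ∑ i ∈ range n, (n.choose (i+1)) • (T - 1) ^ i := by
  induction n with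
  | zero => simp
  | succ n ih =>
    rw [sum_range_succ, ih]
    have h1 : T ^ n = ∑ i ∈ range (n+1), (n.choose i) • (T - 1) ^ i := by
      have h2 : T = (T - 1) + 1 := by simp
      conv_lhs => rw [h2, (Commute.one_right (T-1)).add_pow]
      refine sum_congr rfl fun i _ => ?_
      simp [nsmul_eq_mul, (Nat.cast_commute (n.choose i) _).eq]
    have h2 : ∑ i ∈ range (n+1), ((n+1).choose (i+1)) • (T - 1) ^ i =
        ∑ i ∈ range (n+1), (n.choose i) • (T - 1) ^ i +
        ∑ i ∈ range (n+1), (n.choose (i+1)) • (T - 1) ^ i := by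
      rw [← sum_add_distrib]
      refine sum_congr rfl fun i _ => ?_
      rw [Nat.choose_succ_succ, add_smul]
    rw [h2, h1, sum_range_succ (fun i => (n.choose (i+1)) • (T - 1) ^ i)]
    simp [add_comm]

theorem End_mul {A : Type*} [AddCommGroup A] (f g : AddMonoid.End A) (x : A) :
    (f * g) x = f (g x) := rfl

theorem End_nsmul {A : Type*} [AddCommGroup A] (n : ℕ) (f : AddMonoid.End A) (x : A) :
    (n • f) x = n • f x := rfl

theorem End_sum {A ι : Type*} [AddCommGroup A] (s : Finset ι) (f : ι → AddMonoid.End A) (x : A) :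
    (∑ i ∈ s, f i) x = ∑ i ∈ s, f i x := by
  classical
  induction s using Finset.induction_on with
  | empty => rfl
  | insert a s ha ih => rw [sum_insert ha, sum_insert ha, ← ih]; rfl

section Core

variable {R G : Type*} [CommRing R] [Group G] [MulSemiringAction G R]

/-- The hypotheses: `v` is a discrete valuation, invariant under `G`, with residue field `𝔽_ℓ`,
and totally ramified over the ring of invariants. -/
structure Ram (ℓ : ℕ) (v : AddValuation R ℕ∞) (G : Type*) [Group G] [MulSemiringAction G R] :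
    Prop where
  inv : ∀ (g : G) (x : R), v (g • x) = v x
  dvd : ∀ x y : R, v x ≤ v y → x ∣ y
  res : ∀ x : R, ∃ c : ℤ, 1 ≤ v (x - c)
  fix : ∀ x : R, (∀ g : G, g • x = x) → v x = ⊤ ∨ ∃ n : ℕ, v x = ((n * ℓ ^ 2 : ℕ) : ℕ∞)
  ell : v (ℓ : R) = ((ℓ ^ 2 : ℕ) : ℕ∞)
  unif : ∃ x : R, v x = 1

/-- The filtration. -/
def F (v : AddValuation R ℕ∞) (k : ℕ) (x : R) : Prop := (k : ℕ∞) ≤ v x

variable {ℓ : ℕ} {v : AddValuation R ℕ∞}

theorem F.mono {j k : ℕ} {x : R} (h : F v k x) (hj : j ≤ k) : F v j x :=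
  le_trans (by exact_mod_cast hj) h

theorem F.zero (k : ℕ) : F v k (0 : R) := by simp [F]

theorem F.triv (x : R) : F v 0 x := by simp [F]

theorem F.add {k : ℕ} {x y : R} (hx : F v k x) (hy : F v k y) : F v k (x + y) :=
  v.map_le_add hx hy

theorem F.neg {k : ℕ} {x : R} (hx : F v k x) : F v k (-x) := by
  simpa [F, AddValuation.map_neg] using hx

theorem F.sub {k : ℕ} {x y : R} (hx : F v k x) (hy : F v k y) : F v k (x - y) := by
  rw [sub_eq_add_neg]; exact hx.add hy.neg

theorem F.mul {j k : ℕ} {x y : R} (hx : F v j x) (hy : F v k y) : F v (j + k) (x * y) := by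
  simp only [F, AddValuation.map_mul, Nat.cast_add]
  exact add_le_add hx hy

theorem F.mul_left {k : ℕ} {y : R} (x : R) (hy : F v k y) : F v k (x * y) := by
  have := (F.triv (v := v) x).mul hy
  rwa [zero_add] at this

theorem F.mul_right {k : ℕ} {y : R} (hy : F v k y) (x : R) : F v k (y * x) := by
  rw [mul_comm]; exact hy.mul_left x

theorem F.pow {j : ℕ} {x : R} (hx : F v j x) (n : ℕ) : F v (j * n) (x ^ n) := by
  induction n with
  | zero => simpa using F.triv (1 : R)
  | succ n ih => rw [pow_succ, mul_add, mul_one]; exact ih.mul hx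

theorem F.sum {ι : Type*} {s : Finset ι} {f : ι → R} {k : ℕ} (h : ∀ i ∈ s, F v k (f i)) :
    F v k (∑ i ∈ s, f i) := by
  classical
  induction s using Finset.induction_on with
  | empty => simpa using F.zero k
  | insert a s ha ih =>
    rw [sum_insert ha]
    exact (h a (mem_insert_self _ _)).add (ih fun i hi => h i (mem_insert_of_mem hi))

/-- `x^k - y^k` for close `x`, `y`. -/
theorem F.pow_sub {a r : ℕ} {x y : R} (hx : F v a x) (hy : F v a y) (hxy : F v (a + r) (x - y))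
    (k : ℕ) : F v (a * k + r) (x ^ k - y ^ k) := by
  induction k with
  | zero => simpa using F.zero _
  | succ k ih =>
    have h1 : x ^ (k+1) - y ^ (k+1) = x ^ k * (x - y) + (x ^ k - y ^ k) * y := by ring
    rw [h1]
    have h2 := (hx.pow k).mul hxy
    have h3 := ih.mul hy
    exact (h2.mono (by ring_nf; omega)).add (h3.mono (by ring_nf; omega))

theorem not_F_one : ¬ F v 1 (1 : R) := by
  simp [F]

theorem Ram.dvd_of_F {ℓ : ℕ} [Fact ℓ.Prime] (h : Ram ℓ v G) {c : ℤ} (hc : F v 1 (c : R)) :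
    (ℓ : ℤ) ∣ c := by
  by_contra hn
  have hp : Prime (ℓ : ℤ) := Nat.prime_iff_prime_int.mp (Fact.out : ℓ.Prime)
  have hco : IsCoprime (ℓ : ℤ) c := (hp.coprime_iff_not_dvd).2 hn
  obtain ⟨a, b, hab⟩ := hco
  have h1 : F v 1 ((a : R) * ℓ + b * c) := by
    refine F.add (F.mul_left _ ?_) (F.mul_left _ hc)
    have : F v (ℓ ^ 2) (ℓ : R) := by simp [F, h.ell]
    exact this.mono (Nat.one_le_pow _ _ (Fact.out : ℓ.Prime).pos)
  have h2 : ((a : R) * ℓ + b * c) = 1 := by exact_mod_cast congrArg (Int.cast : ℤ → R) hab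
  rw [h2] at h1
  exact not_F_one h1

theorem Ram.F_of_dvd {ℓ : ℕ} [Fact ℓ.Prime] (h : Ram ℓ v G) {c : ℤ} (hc : (ℓ : ℤ) ∣ c) :
    F v (ℓ ^ 2) (c : R) := by
  obtain ⟨d, rfl⟩ := hc
  have : F v (ℓ ^ 2) (ℓ : R) := by simp [F, h.ell]
  push_cast
  exact this.mul_right _

theorem Ram.F_smul (h : Ram ℓ v G) {k : ℕ} {x : R} (hx : F v k x) (g : G) : F v k (g • x) := by
  simpa [F, h.inv] using hx

theorem smul_intCast' (g : G) (c : ℤ) : g • (c : R) = c :=
  map_intCast (MulSemiringAction.toRingHom G R g) c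

/-- expansion of an element of the filtration -/
theorem Ram.expand (h : Ram ℓ v G) {a : ℕ} {u z : R} (hu : v u = a) (hz : F v a z) :
    ∃ c : ℤ, F v (a + 1) (z - c * u) := by
  obtain ⟨w, rfl⟩ := h.dvd u z (by rw [hu]; exact hz)
  obtain ⟨c, hc⟩ := h.res w
  refine ⟨c, ?_⟩
  have h1 : u * w - c * u = u * (w - c) := by ring
  rw [h1]
  have hu' : F v a u := by simp [F, hu]
  exact hu'.mul (by simpa [F] using hc)

/-- Every element of `G` acts trivially modulo one step of the filtration. -/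
theorem Ram.step1 {ℓ : ℕ} [Fact ℓ.Prime] (h : Ram ℓ v G) (hexp : ∀ a : G, a ^ ℓ = 1) {lam : R}
    (hlam : v lam = 1) (g : G) : F v 2 (g • lam - lam) := by
  have hl : F v 1 lam := by simp [F, hlam]
  obtain ⟨c, hc⟩ := h.expand (a := 1) (u := lam) (z := g • lam) (by simpa using hlam)
    (h.F_smul hl g)
  have key : ∀ n : ℕ, F v 2 ((g ^ n) • lam - (c : R) ^ n * lam) := by
    intro n
    induction n with
    | zero => simpa using F.zero 2
    | succ n ih =>
      have h1 : (g ^ (n+1)) • lam - (c : R) ^ (n+1) * lam =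
          g • ((g ^ n) • lam - (c : R) ^ n * lam) + (c : R) ^ n * (g • lam - c * lam) := by
        rw [smul_sub, smul_smul, ← pow_succ', smul_mul', smul_pow', smul_intCast']
        ring
      rw [h1]
      exact (h.F_smul ih g).add (hc.mul_left _)
  have h2 := key ℓ
  rw [hexp, one_smul] at h2
  have h3 : lam - (c : R) ^ ℓ * lam = ((1 - c ^ ℓ : ℤ) : R) * lam := by push_cast; ring
  rw [h3] at h2
  have h4 : F v 1 ((1 - c ^ ℓ : ℤ) : R) := by
    simp only [F, AddValuation.map_mul, hlam] at h2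
    simp only [F]
    have : ((1 + 1 : ℕ) : ℕ∞) ≤ v ((1 - c ^ ℓ : ℤ) : R) + 1 := h2
    rw [Nat.cast_add, Nat.cast_one] at this
    exact (ENat.add_le_add_iff_right (by simp)).1 this
  have h5 := h.dvd_of_F h4
  have h6 : (ℓ : ℤ) ∣ c ^ ℓ - c := by
    have h7 : ((c ^ ℓ - c : ℤ) : ZMod ℓ) = 0 := by
      push_cast
      rw [ZMod.pow_card, sub_self]
    exact (ZMod.intCast_zmod_eq_zero_iff_dvd _ _).1 h7
  have h7 : (ℓ : ℤ) ∣ c - 1 := by
    have h8 := dvd_add h5 h6
    have h9 : (1 - c ^ ℓ) + (c ^ ℓ - c) = -(c - 1) := by ring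
    rw [h9] at h8
    exact (dvd_neg).1 h8
  have h8 := (h.F_of_dvd h7).mul hl
  have h9 : g • lam - lam = (g • lam - c * lam) + ((c - 1 : ℤ) : R) * lam := by push_cast; ring
  rw [h9]
  refine hc.add (h8.mono ?_)
  have := Nat.one_le_pow 2 ℓ (Fact.out : ℓ.Prime).pos
  omega

/-- Every element of `G` raises the filtration. -/
theorem Ram.raise (h : Ram ℓ v G) {lam : R} (hlam : v lam = 1) {g : G}
    (h1 : F v 2 (g • lam - lam)) {k : ℕ} {z : R} (hz : F v k z) : F v (k + 1) (g • z - z) := by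
  have hl : F v 1 lam := by simp [F, hlam]
  have hk : v (lam ^ k) = (k : ℕ∞) := by rw [AddValuation.map_pow, hlam]; simp
  obtain ⟨c, hc⟩ := h.expand hk hz
  have h2 : g • z - z = c * ((g • lam) ^ k - lam ^ k) +
      (g • (z - c * lam ^ k) - (z - c * lam ^ k)) := by
    rw [smul_sub, smul_mul', smul_intCast', smul_pow']
    ring
  rw [h2]
  have h3 := F.pow_sub (r := 1) (h.F_smul hl g) hl h1 k
  rw [one_mul] at h3
  exact (h3.mul_left _).add ((h.F_smul hc g).sub hc)

/-- Some nontrivial element acts trivially modulo two steps. -/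
theorem Ram.step2 {ℓ : ℕ} [Fact ℓ.Prime] (h : Ram ℓ v G) (hcard : Nat.card G = ℓ ^ 2) {lam : R}
    (hlam : v lam = 1) (h1 : ∀ g : G, F v 2 (g • lam - lam)) :
    ∃ s : G, s ≠ 1 ∧ F v 3 (s • lam - lam) := by
  have hp := (Fact.out : ℓ.Prime)
  have hfin : Finite G := by
    refine Nat.finite_of_card_ne_zero ?_
    rw [hcard]
    exact pow_ne_zero _ hp.ne_zero
  have := Fintype.ofFinite G
  have hl2 : v (lam ^ 2) = ((2 : ℕ) : ℕ∞) := by rw [AddValuation.map_pow, hlam]; simp
  choose c hc using fun g : G => h.expand hl2 (h1 g)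
  obtain ⟨g, g', hne, hgg⟩ := Fintype.exists_ne_map_eq_of_card_lt
    (fun g : G => ((c g : ℤ) : ZMod ℓ)) (by
      rw [ZMod.card, ← Nat.card_eq_fintype_card, hcard, sq]
      exact lt_mul_of_one_lt_left hp.pos hp.one_lt)
  refine ⟨g'⁻¹ * g, fun h0 => hne ?_, ?_⟩
  · rw [inv_mul_eq_one] at h0; exact h0.symm
  · have h2 : (g'⁻¹ * g) • lam - lam = g'⁻¹ • (g • lam - g' • lam) := by
      rw [smul_sub, smul_smul, smul_smul, inv_mul_cancel, one_smul]
    rw [h2]
    refine h.F_smul ?_ _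
    have h3 : g • lam - g' • lam = (g • lam - lam - c g * lam ^ 2) -
        (g' • lam - lam - c g' * lam ^ 2) + ((c g - c g' : ℤ) : R) * lam ^ 2 := by
      push_cast; ring
    rw [h3]
    have h4 : (ℓ : ℤ) ∣ c g - c g' := by
      rw [← ZMod.intCast_zmod_eq_zero_iff_dvd]
      push_cast
      rw [sub_eq_zero]
      exact hgg
    refine ((hc g).sub (hc g')).add (((h.F_of_dvd h4).mul (k := 2) (by simp [F, hl2])).mono ?_)
    have := Nat.one_le_pow 2 ℓ hp.pos
    omega

/-- `G` is generated by two elements. -/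
theorem exists_gen {ℓ : ℕ} [Fact ℓ.Prime] (hcard : Nat.card G = ℓ ^ 2)
    (hexp : ∀ a : G, a ^ ℓ = 1) {s : G} (hs : s ≠ 1) :
    ∃ t : G, ∀ x : R, s • x = x → t • x = x → ∀ g : G, g • x = x := by
  have hp := (Fact.out : ℓ.Prime)
  have hfin : Finite G := by
    refine Nat.finite_of_card_ne_zero ?_
    rw [hcard]
    exact pow_ne_zero _ hp.ne_zero
  have hord : orderOf s = ℓ := orderOf_eq_prime (hexp s) hs
  have hz : Nat.card (Subgroup.zpowers s) = ℓ := by rw [Nat.card_zpowers, hord]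
  obtain ⟨t, ht⟩ : ∃ t : G, t ∉ Subgroup.zpowers s := by
    by_contra hcon
    push Not at hcon
    have htop : Subgroup.zpowers s = ⊤ := by
      rw [eq_top_iff]; intro x _; exact hcon x
    rw [htop, Nat.card_congr (Subgroup.topEquiv (G := G)).toEquiv, hcard, sq] at hz
    have := hp.one_lt
    nlinarith
  refine ⟨t, fun x hsx htx g => ?_⟩
  set H := MulAction.stabilizer G x with hH
  have h1 : Subgroup.zpowers s ≤ H := by
    rw [Subgroup.zpowers_le]; exact hsx
  have h2 : Nat.card H ∣ ℓ ^ 2 := hcard ▸ Subgroup.card_subgroup_dvd_card H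
  obtain ⟨k, hk, hk'⟩ := (Nat.dvd_prime_pow hp).1 h2
  have h3 : ℓ < Nat.card H := by
    rw [← hz]
    refine lt_of_le_of_ne (Subgroup.card_le_of_le h1) fun heq => ?_
    have h4 : Subgroup.zpowers s = H := Subgroup.eq_of_le_of_card_ge h1 heq.ge
    rw [h4] at ht
    exact ht htx
  have h4 : k = 2 := by
    by_contra hne
    have : k ≤ 1 := by omega
    have h5 : ℓ ^ k ≤ ℓ ^ 1 := Nat.pow_le_pow_right hp.pos this
    rw [pow_one] at h5
    omega
  subst h4
  have h5 : H = ⊤ := Subgroup.eq_top_of_card_eq H (by rw [hk', hcard])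
  have h6 : g ∈ H := by rw [h5]; trivial
  exact h6

/-- The additive endomorphism given by an element. -/
def Tr (R : Type*) [CommRing R] [MulSemiringAction G R] (g : G) : AddMonoid.End R :=
  (MulSemiringAction.toRingHom G R g).toAddMonoidHom

theorem Tr_apply (g : G) (x : R) : Tr R g x = g • x := rfl

theorem Tr_pow_apply (g : G) (n : ℕ) (x : R) : (Tr R g ^ n) x = (g ^ n) • x := by
  induction n with
  | zero => simp
  | succ n ih =>
    rw [pow_succ', End_mul, ih, Tr_apply, smul_smul, ← pow_succ']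

theorem Tr_sub_succ (g : G) (n : ℕ) (x : R) :
    ((Tr R g - 1) ^ (n+1)) x = g • (((Tr R g - 1) ^ n) x) - ((Tr R g - 1) ^ n) x := by
  rw [pow_succ', End_mul]
  rfl

theorem Tr_sum (g : G) (n : ℕ) (x : R) :
    ∑ j ∈ range n, (g ^ j) • x = ∑ i ∈ range n, (n.choose (i+1)) • ((Tr R g - 1) ^ i) x := by
  have h := congrArg (fun f : AddMonoid.End R => f x) (hockey (Tr R g) n)
  simp only [End_sum, End_nsmul, Tr_pow_apply] at h
  exact h

/-- Units close to one. -/
def FU (v : AddValuation R ℕ∞) (k : ℕ) (w : Rˣ) : Prop := F v k ((w : R) - 1)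

theorem FU.mono {j k : ℕ} {w : Rˣ} (h : FU v k w) (hj : j ≤ k) : FU v j w := F.mono h hj

theorem FU.one (k : ℕ) : FU v k 1 := by simp [FU, F]

theorem FU.mul {k : ℕ} {w w' : Rˣ} (h : FU v k w) (h' : FU v k w') : FU v k (w * w') := by
  have h1 : ((w * w' : Rˣ) : R) - 1 = w * ((w' : R) - 1) + ((w : R) - 1) := by push_cast; ring
  rw [FU, h1]
  exact (F.mul_left _ h').add h

theorem FU.pow {k : ℕ} {w : Rˣ} (h : FU v k w) (n : ℕ) : FU v k (w ^ n) := by
  induction n with
  | zero => simpa using FU.one k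
  | succ n ih => rw [pow_succ]; exact ih.mul h

theorem FU.prod {ι : Type*} {s : Finset ι} {f : ι → Rˣ} {k : ℕ} (h : ∀ i ∈ s, FU v k (f i)) :
    FU v k (∏ i ∈ s, f i) := by
  classical
  induction s using Finset.induction_on with
  | empty => simpa using FU.one k
  | insert a s ha ih =>
    rw [prod_insert ha]
    exact (h a (mem_insert_self _ _)).mul (ih fun i hi => h i (mem_insert_of_mem hi))

/-- The `ℓ`-th power of a unit in `U_2` is in `U_{ℓ+1}`. -/
theorem Ram.pow_ell {ℓ : ℕ} [Fact ℓ.Prime] (h : Ram ℓ v G) {w : Rˣ} (hw : FU v 2 w) :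
    FU v (ℓ + 1) (w ^ ℓ) := by
  have hp := (Fact.out : ℓ.Prime)
  obtain ⟨r, hr⟩ := exists_add_pow_prime_eq hp ((w : R) - 1) 1
  have h1 : ((w ^ ℓ : Rˣ) : R) - 1 = ((w : R) - 1) ^ ℓ + ℓ * (((w : R) - 1) * 1 * r) := by
    have h2 : ((w : R) - 1 + 1) ^ ℓ = (w : R) ^ ℓ := by ring_nf
    rw [h2] at hr
    push_cast
    rw [hr]
    ring
  rw [FU, h1]
  have h2 := F.pow hw ℓ
  have h3 : F v (ℓ ^ 2) (ℓ : R) := by simp [F, h.ell]
  have h4 := hp.two_le
  refine (h2.mono (by omega)).add ((h3.mul_right _).mono (by nlinarith))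

/-- The action on units as an additive endomorphism. -/
def TU (R : Type*) [CommRing R] [MulSemiringAction G R] (g : G) :
    AddMonoid.End (Additive Rˣ) :=
  MonoidHom.toAdditive (Units.map (MulSemiringAction.toRingHom G R g : R →* R))

theorem TU_apply (g : G) (w : Rˣ) :
    (((Additive.toMul (TU R g (Additive.ofMul w))) : Rˣ) : R) = g • (w : R) := rfl

theorem TU_pow_apply (g : G) (n : ℕ) (w : Rˣ) :
    (((Additive.toMul ((TU R g ^ n) (Additive.ofMul w))) : Rˣ) : R) = (g ^ n) • (w : R) := by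
  induction n with
  | zero => simp
  | succ n ih =>
    rw [pow_succ', End_mul]
    have h1 := TU_apply g (Additive.toMul ((TU R g ^ n) (Additive.ofMul w)))
    rw [ofMul_toMul] at h1
    rw [h1, ih, smul_smul, ← pow_succ']

theorem Ram.TU_raise (h : Ram ℓ v G) {lam : R} (hlam : v lam = 1) {g : G}
    (h1 : F v 2 (g • lam - lam)) {w : Rˣ} {k : ℕ} (hw : FU v k w) (i : ℕ) :
    FU v (k + i) (Additive.toMul (((TU R g - 1) ^ i) (Additive.ofMul w))) := by
  induction i with
  | zero => simpa using hw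
  | succ i ih =>
    set w' : Rˣ := Additive.toMul (((TU R g - 1) ^ i) (Additive.ofMul w)) with hw'
    have h2 : Additive.toMul (((TU R g - 1) ^ (i+1)) (Additive.ofMul w)) =
        Additive.toMul (TU R g (Additive.ofMul w')) * w'⁻¹ := by
      rw [pow_succ', End_mul, hw', ofMul_toMul]
      change Additive.toMul (TU R g _ - _) = _
      rw [toMul_sub, div_eq_mul_inv]
      rfl
    rw [h2]
    have h3 : ((Additive.toMul (TU R g (Additive.ofMul w')) * w'⁻¹ : Rˣ) : R) - 1 =
        ((w'⁻¹ : Rˣ) : R) * (g • ((w' : R) - 1) - ((w' : R) - 1)) := by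
      rw [Units.val_mul, TU_apply, smul_sub, smul_one]
      have h4 : ((w'⁻¹ : Rˣ) : R) * (w' : R) = 1 := by simp
      linear_combination h4
    rw [FU, h3]
    have h4 := h.raise hlam h1 ih
    exact (F.mul_left _ h4).mono (by omega)

/-- The norm of a unit in `U_2` is in `U_{ℓ+1}`. -/
theorem Ram.norm_unit {ℓ : ℕ} [Fact ℓ.Prime] (h : Ram ℓ v G) {lam : R} (hlam : v lam = 1) {g : G}
    (h1 : F v 2 (g • lam - lam)) {w : Rˣ} (hw : FU v 2 w) :
    F v (ℓ + 1) ((∏ j ∈ range ℓ, (g ^ j) • (w : R)) - 1) := by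
  have hp := (Fact.out : ℓ.Prime)
  have h2 := congrArg (fun f : AddMonoid.End (Additive Rˣ) => f (Additive.ofMul w))
    (hockey (TU R g) ℓ)
  simp only [End_sum, End_nsmul] at h2
  have h3 : (∏ j ∈ range ℓ, (g ^ j) • (w : R)) =
      ((Additive.toMul (∑ i ∈ range ℓ, ℓ.choose (i+1) •
        (((TU R g - 1) ^ i) (Additive.ofMul w))) : Rˣ) : R) := by
    rw [← h2, toMul_sum, Units.coe_prod]
    refine prod_congr rfl fun j _ => (TU_pow_apply g j w).symm
  rw [h3]
  change FU v (ℓ + 1) _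
  rw [toMul_sum]
  refine FU.prod fun i hi => ?_
  rw [mem_range] at hi
  have h4 := h.TU_raise hlam h1 hw i
  have h5 : Additive.toMul (ℓ.choose (i+1) • (((TU R g - 1) ^ i) (Additive.ofMul w))) =
      (Additive.toMul (((TU R g - 1) ^ i) (Additive.ofMul w))) ^ (ℓ.choose (i+1)) := by
    rw [toMul_nsmul]
  rw [h5]
  by_cases hi' : i + 1 = ℓ
  · rw [hi', Nat.choose_self, pow_one]
    exact h4.mono (by omega)
  · obtain ⟨m, hm⟩ := hp.dvd_choose_self (Nat.succ_ne_zero i) (lt_of_le_of_ne hi hi')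
    rw [show ℓ.choose (i+1) = ℓ * m from hm, pow_mul]
    exact (h.pow_ell (h4.mono (by omega))).pow m

theorem v_prod {ι : Type*} (s : Finset ι) (f : ι → R) :
    v (∏ i ∈ s, f i) = ∑ i ∈ s, v (f i) := by
  classical
  induction s using Finset.induction_on with
  | empty => simp
  | insert a s ha ih => rw [prod_insert ha, sum_insert ha, AddValuation.map_mul, ih]

/-- The product over a cyclic group is invariant. -/
theorem smul_norm {g : G} {n : ℕ} (hg : g ^ n = 1) (x : R) :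
    g • (∏ j ∈ range n, (g ^ j) • x) = ∏ j ∈ range n, (g ^ j) • x := by
  rw [smul_prod']
  simp only [smul_smul, ← pow_succ']
  cases n with
  | zero => simp
  | succ n =>
    rw [prod_range_succ, prod_range_succ' (fun j => (g ^ j) • x), hg, pow_zero]

theorem smul_trace {g : G} {n : ℕ} (hg : g ^ n = 1) (x : R) :
    g • (∑ j ∈ range n, (g ^ j) • x) = ∑ j ∈ range n, (g ^ j) • x := by
  rw [smul_sum]
  simp only [smul_smul, ← pow_succ']
  cases n with
  | zero => simp
  | succ n =>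
    rw [sum_range_succ, sum_range_succ' (fun j => (g ^ j) • x), hg, pow_zero]

/-- `K`-level divisibility. -/
theorem Ram.dvd_K {ℓ : ℕ} [Fact ℓ.Prime] (h : Ram ℓ v G) (hcomm : ∀ a b : G, a * b = b * a)
    (hexp : ∀ a : G, a ^ ℓ = 1) {s t : G}
    (hst : ∀ x : R, s • x = x → t • x = x → ∀ g : G, g • x = x) {x : R} (hx : t • x = x)
    {m : ℕ} (hF : F v (ℓ * m + 1) x) : F v (ℓ * (m + 1)) x := by
  have hp := (Fact.out : ℓ.Prime)
  set N := ∏ j ∈ range ℓ, (s ^ j) • x with hN
  have h1 : t • N = N := by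
    rw [hN, smul_prod']
    refine prod_congr rfl fun j _ => ?_
    rw [smul_smul, hcomm, ← smul_smul, hx]
  have h2 := h.fix N (hst N (smul_norm (hexp s) x) h1)
  have h3 : v N = ℓ * v x := by
    rw [hN, v_prod]
    simp [h.inv]
  rw [h3] at h2
  cases hv : v x with
  | top => simp [F, hv]
  | coe k =>
    rw [hv] at h2
    rcases h2 with h2 | ⟨n, h2⟩
    · exfalso
      have : ((ℓ * k : ℕ) : ℕ∞) = ⊤ := by rw [Nat.cast_mul]; exact h2
      exact ENat.natCast_ne_top _ this
    · have h4 : ℓ * k = n * ℓ ^ 2 := by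
        have : ((ℓ * k : ℕ) : ℕ∞) = ((n * ℓ ^ 2 : ℕ) : ℕ∞) := by rw [Nat.cast_mul]; exact h2
        exact_mod_cast this
      have h5 : k = ℓ * n := by
        have h6 : ℓ * k = ℓ * (ℓ * n) := by rw [h4]; ring
        exact Nat.eq_of_mul_eq_mul_left hp.pos h6
      have h6 : ℓ * m + 1 ≤ k := by
        have : ((ℓ * m + 1 : ℕ) : ℕ∞) ≤ (k : ℕ∞) := by rw [← hv]; exact hF
        exact_mod_cast this
      have h7 : m < n := by
        rw [h5] at h6
        exact Nat.lt_of_mul_lt_mul_left (a := ℓ) (by omega)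
      have h8 : ℓ * (m + 1) ≤ k := by
        rw [h5]; exact Nat.mul_le_mul_left _ h7
      rw [F, hv]
      exact_mod_cast h8

theorem core {ℓ : ℕ} [Fact ℓ.Prime] (hℓ : ℓ ≠ 2) (v : AddValuation R ℕ∞) (h : Ram ℓ v G)
    (hcard : Nat.card G = ℓ ^ 2) (hcomm : ∀ a b : G, a * b = b * a) (hexp : ∀ a : G, a ^ ℓ = 1) :
    False := by
  have hp := (Fact.out : ℓ.Prime)
  have hp3 : 3 ≤ ℓ := by
    have := hp.two_le
    omega
  obtain ⟨lam, hlam⟩ := h.unif
  have hall := h.step1 hexp hlam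
  obtain ⟨s, hs1, hs⟩ := h.step2 hcard hlam hall
  obtain ⟨t, hst⟩ := exists_gen (R := R) hcard hexp hs1
  -- the unit `u`
  obtain ⟨u, hu⟩ := h.dvd lam (s • lam) (by rw [h.inv])
  have hvu : v u = 0 := by
    have h1 := congrArg v hu
    rw [h.inv, AddValuation.map_mul, hlam] at h1
    have h2 : (1 : ℕ∞) + v u ≤ 1 + 0 := by rw [add_zero]; exact h1.ge
    exact le_antisymm ((ENat.add_le_add_iff_left (by simp)).1 h2) zero_le
  have hunit : IsUnit u := by
    have := h.dvd u 1 (by rw [hvu]; exact zero_le)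
    exact isUnit_of_dvd_one this
  obtain ⟨w, hw⟩ := hunit
  have hFw : FU v 2 w := by
    have h1 : s • lam - lam = lam * ((w : R) - 1) := by rw [hu, hw]; ring
    rw [h1] at hs
    simp only [F, AddValuation.map_mul, hlam] at hs
    have h2 : (1 : ℕ∞) + ((2 : ℕ) : ℕ∞) ≤ 1 + v ((w : R) - 1) := by
      refine le_trans (le_of_eq ?_) hs
      norm_num
    exact (ENat.add_le_add_iff_left (by simp)).1 h2
  -- the norm
  set π := ∏ j ∈ range ℓ, (t ^ j) • lam with hπ
  have htπ : t • π = π := smul_norm (hexp t) lam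
  have hvπ : v π = ((ℓ : ℕ) : ℕ∞) := by
    rw [hπ, v_prod]
    simp [h.inv, hlam]
  have hFπ : F v ℓ π := by simp [F, hvπ]
  have hsπ : s • π - π = π * ((∏ j ∈ range ℓ, (t ^ j) • (w : R)) - 1) := by
    have h1 : s • π = π * ∏ j ∈ range ℓ, (t ^ j) • (w : R) := by
      rw [hπ, smul_prod', ← prod_mul_distrib]
      refine prod_congr rfl fun j _ => ?_
      rw [smul_smul, hcomm, ← smul_smul, hu, smul_mul', hw]
    rw [h1]; ring
  have hFsπ : F v (ℓ * 3) (s • π - π) := by
    have h1 : F v (ℓ * 2 + 1) (s • π - π) := by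
      rw [hsπ]
      exact (hFπ.mul (h.norm_unit hlam (hall t) hFw)).mono (by omega)
    refine h.dvd_K hcomm hexp hst ?_ h1
    rw [smul_sub, smul_smul, hcomm, ← smul_smul, htπ]
  -- raising on `K`
  have hraise : ∀ (m : ℕ) (x : R), t • x = x → F v (ℓ * m) x → F v (ℓ * (m + 2)) (s • x - x) := by
    intro m x hx hFx
    have hπm : ∀ m : ℕ, v (π ^ m) = ((ℓ * m : ℕ) : ℕ∞) := by
      intro m
      rw [AddValuation.map_pow, hvπ]
      simp [mul_comm]
    have htm : ∀ m : ℕ, t • (π ^ m) = π ^ m := fun m => by rw [smul_pow', htπ]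
    have step : ∀ (m : ℕ) (x : R), t • x = x → F v (ℓ * m) x →
        ∃ c : ℤ, F v (ℓ * (m + 1)) (x - c * π ^ m) ∧ t • (x - c * π ^ m) = x - c * π ^ m := by
      intro m x hx hFx
      obtain ⟨c, hc⟩ := h.expand (hπm m) hFx
      have h1 : t • (x - c * π ^ m) = x - c * π ^ m := by
        rw [smul_sub, smul_mul', smul_intCast', htm, hx]
      exact ⟨c, h.dvd_K hcomm hexp hst h1 hc, h1⟩
    obtain ⟨c, hc, hct⟩ := step m x hx hFx
    obtain ⟨c', hc', hct'⟩ := step (m+1) _ hct hc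
    have h1 : s • x - x = c * ((s • π) ^ m - π ^ m) + c' * ((s • π) ^ (m+1) - π ^ (m+1)) +
        (s • (x - c * π ^ m - c' * π ^ (m+1)) - (x - c * π ^ m - c' * π ^ (m+1))) := by
      rw [smul_sub, smul_sub, smul_mul', smul_mul', smul_intCast', smul_intCast', smul_pow',
        smul_pow']
      ring
    have h2 : ∀ m : ℕ, F v (ℓ * (m + 2)) ((s • π) ^ m - π ^ m) := by
      intro m
      have := F.pow_sub (r := ℓ * 2) (h.F_smul hFπ s) hFπ (hFsπ.mono (by omega)) m
      exact this.mono (by ring_nf; omega)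
    rw [h1]
    have h3 : F v (ℓ * (m + 2)) (x - c * π ^ m - c' * π ^ (m+1)) := hc'.mono (by ring_nf; omega)
    refine (((h2 m).mul_left _).add (((h2 (m+1)).mono ?_).mul_left _)).add
      ((h.F_smul h3 s).sub h3)
    exact Nat.mul_le_mul_left _ (by omega)
  -- iterates
  have hiter : ∀ i : ℕ, t • (((Tr R s - 1) ^ i) π) = ((Tr R s - 1) ^ i) π ∧
      F v (ℓ * (2 * i + 1)) (((Tr R s - 1) ^ i) π) := by
    intro i
    induction i with
    | zero => exact ⟨by simpa using htπ, by simpa using hFπ⟩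
    | succ i ih =>
      rw [Tr_sub_succ]
      refine ⟨?_, ?_⟩
      · rw [smul_sub, smul_smul, hcomm, ← smul_smul, ih.1]
      · have := hraise (2 * i + 1) _ ih.1 ih.2
        exact this.mono (le_of_eq (by ring))
  -- the trace
  set S := ∑ j ∈ range ℓ, (s ^ j) • π with hS
  have hsS : s • S = S := smul_trace (hexp s) π
  have htS : t • S = S := by
    rw [hS, smul_sum]
    refine sum_congr rfl fun j _ => ?_
    rw [smul_smul, hcomm, ← smul_smul, htπ]
  have hSsum := Tr_sum s ℓ π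
  rw [← hS] at hSsum
  have hrest : F v (ℓ ^ 2 + ℓ + 1) (S - ℓ * π) := by
    have h1 : S - ℓ * π = ∑ i ∈ range (ℓ - 1), (ℓ.choose (i+1+1)) •
        (((Tr R s - 1) ^ (i+1)) π) := by
      rw [hSsum]
      obtain ⟨n, hn⟩ : ∃ n, ℓ = n + 1 := ⟨ℓ - 1, by omega⟩
      have h2 : range ℓ = range (n+1) := by rw [hn]
      rw [h2, sum_range_succ', show ℓ - 1 = n by omega]
      simp
    rw [h1]
    refine F.sum fun i hi => ?_
    rw [mem_range] at hi
    have h2 := (hiter (i+1)).2
    by_cases hi' : i + 1 + 1 = ℓ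
    · rw [hi', Nat.choose_self, one_smul]
      refine h2.mono ?_
      have : 2 * (i+1) + 1 = 2 * ℓ - 1 := by omega
      rw [this]
      have h3 : ℓ * (2 * ℓ - 1) = 2 * ℓ ^ 2 - ℓ := by
        rw [Nat.mul_sub, mul_one]; ring_nf
      have h4 : 3 * ℓ ≤ ℓ ^ 2 := by nlinarith
      omega
    · obtain ⟨m, hm⟩ := hp.dvd_choose_self (Nat.succ_ne_zero (i+1))
        (lt_of_le_of_ne (by omega) hi')
      have h3 : (ℓ.choose (i+1+1)) • (((Tr R s - 1) ^ (i+1)) π) =
          (ℓ : R) * ((m : R) * (((Tr R s - 1) ^ (i+1)) π)) := by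
        rw [show ℓ.choose (i+1+1) = ℓ * m from hm, nsmul_eq_mul]
        push_cast; ring
      rw [h3]
      have h4 : F v (ℓ ^ 2) (ℓ : R) := by simp [F, h.ell]
      refine (h4.mul (F.mul_left _ h2)).mono ?_
      nlinarith
  have hvℓπ : v ((ℓ : R) * π) = ((ℓ ^ 2 + ℓ : ℕ) : ℕ∞) := by
    rw [AddValuation.map_mul, h.ell, hvπ, Nat.cast_add]
  have hvS : v S = ((ℓ ^ 2 + ℓ : ℕ) : ℕ∞) := by
    have h1 : v ((ℓ : R) * π) < v (S - ℓ * π) := by
      rw [hvℓπ]
      refine lt_of_lt_of_le ?_ hrest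
      exact_mod_cast Nat.lt_succ_self _
    have h2 := AddValuation.map_add_eq_of_lt_left v h1
    rw [add_sub_cancel] at h2
    rw [h2, hvℓπ]
  rcases h.fix S (hst S hsS htS) with h1 | ⟨n, h1⟩
  · rw [hvS] at h1
    exact ENat.natCast_ne_top _ h1
  · rw [hvS] at h1
    have h2 : ℓ ^ 2 + ℓ = n * ℓ ^ 2 := by exact_mod_cast h1
    have h3 : ℓ ^ 2 ∣ ℓ := by
      have h4 : ℓ ^ 2 ∣ ℓ ^ 2 + ℓ := by rw [h2]; exact dvd_mul_left _ _
      exact (Nat.dvd_add_right (dvd_refl _)).1 h4
    have h4 := Nat.le_of_dvd hp.pos h3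
    nlinarith

end Core

end Pool.Agent.H71.KW
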