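import Mathlib

/-!
# Abelian extensions of `ℚ` ramified at one prime only are totally ramified there
-/

set_option autoImplicit false

namespace Pool.Agent.H71.KW

open NumberField

section

variable {L : Type*} [Field L]

theorem liesOver_of_mem {q : ℕ} (hq : q.Prime) {Q : Ideal (𝓞 L)} [hQ : Q.IsPrime]
    (h : (q : 𝓞 L) ∈ Q) : Q.LiesOver (Ideal.span {(q : ℤ)}) :=
  (Ideal.liesOver_span_iff Ideal.IsPrime.ne_top' (Nat.prime_iff_prime_int.1 hq)).mpr (by simpa using h)

theorem isPrime_span {q : ℕ} (hq : q.Prime) : (Ideal.span {(q : ℤ)}).IsPrime :=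
  (Ideal.span_singleton_prime (by exact_mod_cast hq.ne_zero)).2 (Nat.prime_iff_prime_int.1 hq)

theorem isMaximal_span {q : ℕ} (hq : q.Prime) : (Ideal.span {(q : ℤ)}).IsMaximal :=
  PrincipalIdealRing.isMaximal_of_irreducible (Nat.prime_iff_prime_int.1 hq).irreducible

end

variable {L : Type*} [Field L] [NumberField L] [IsGalois ℚ L]

theorem card_inertia {q : ℕ} (hq : q.Prime) {Q : Ideal (𝓞 L)} [hQ : Q.IsPrime]
    (h : (q : 𝓞 L) ∈ Q) : Nat.card (Q.inertia Gal(L/ℚ)) = Q.ramificationIdx ℤ := by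
  have := liesOver_of_mem hq h
  have := isPrime_span hq
  rw [Ideal.card_inertia_eq_ramificationIdxIn (Ideal.span {(q : ℤ)}) Q,
    Ideal.ramificationIdxIn_eq_ramificationIdx _ Q Gal(L/ℚ)]

/-- In an abelian extension, the inertia groups above one prime agree. -/
theorem inertia_le_of_comm (hcomm : ∀ a b : Gal(L/ℚ), a * b = b * a) {q : ℕ} (hq : q.Prime)
    {P Q : Ideal (𝓞 L)} [P.IsPrime] [Q.IsPrime] (hP : (q : 𝓞 L) ∈ P) (hQ : (q : 𝓞 L) ∈ Q) :
    P.inertia Gal(L/ℚ) ≤ Q.inertia Gal(L/ℚ) := by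
  have := liesOver_of_mem hq hP
  have := liesOver_of_mem hq hQ
  obtain ⟨σ, hσ⟩ := Ideal.exists_smul_eq_of_isGaloisGroup (Ideal.span {(q : ℤ)}) P Q Gal(L/ℚ)
  intro g hg x
  have h1 := hg (σ⁻¹ • x)
  rw [← hσ]
  have h2 : g • x - x = σ • (g • σ⁻¹ • x - σ⁻¹ • x) := by
    rw [smul_sub, smul_smul, smul_smul, smul_smul, mul_inv_cancel, one_smul, hcomm σ g,
      mul_assoc, mul_inv_cancel, mul_one]
  rw [h2]
  exact Ideal.smul_mem_pointwise_smul σ _ _ h1

open IntermediateField in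
/-- An abelian extension of `ℚ` which is unramified outside `ℓ` is totally ramified at `ℓ`. -/
theorem inertia_eq_top (hcomm : ∀ a b : Gal(L/ℚ), a * b = b * a) {ℓ : ℕ} (hℓ : ℓ.Prime)
    (hun : ∀ Q : Ideal (𝓞 L), Q.IsPrime → ∀ q : ℕ, q.Prime → q ≠ ℓ → (q : 𝓞 L) ∈ Q →
      Q.inertia Gal(L/ℚ) = ⊥)
    (P : Ideal (𝓞 L)) [hPp : P.IsPrime] (hP : (ℓ : 𝓞 L) ∈ P) : P.inertia Gal(L/ℚ) = ⊤ := by
  set I := P.inertia Gal(L/ℚ) with hI
  have hnorm : I.Normal := ⟨fun n hn g => by
    rw [hcomm g n, mul_assoc, mul_inv_cancel, mul_one]; exact hn⟩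
  set E := fixedField I with hE
  have hfix : E.fixingSubgroup = I := fixingSubgroup_fixedField I
  have : IsGalois ℚ E := IsGalois.of_fixedField_normal_subgroup I
  by_contra hne
  have hE1 : 1 < Module.finrank ℚ E := by
    have hpos : 0 < Module.finrank ℚ E := Module.finrank_pos
    by_contra hle
    have h1 : Module.finrank ℚ E = 1 := by omega
    have h2 : E = ⊥ := IntermediateField.finrank_eq_one_iff.1 h1
    apply hne
    rw [← hfix, h2, IntermediateField.fixingSubgroup_bot]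
  obtain ⟨p, hp, hram⟩ := exists_not_isUnramifiedAt_int_of_isGalois (K := E) (𝒪 := 𝓞 E) hE1
  -- a prime of `L` above `p`
  have := isMaximal_span hp
  have := isPrime_span hp
  obtain ⟨Q, hQmax, hQover⟩ := Ideal.exists_maximal_ideal_liesOver_of_isIntegral (S := 𝓞 L)
    (Ideal.span {(p : ℤ)})
  have hQp : Q.IsPrime := hQmax.isPrime
  have hpQ : (p : 𝓞 L) ∈ Q := by
    have : (p : ℤ) ∈ Q.under ℤ := by
      rw [← hQover.over]
      exact Ideal.mem_span_singleton_self _
    simpa using this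
  set P' := Q.under (𝓞 E) with hP'
  have hpP' : (p : 𝓞 E) ∈ P' := by
    rw [hP', Ideal.mem_comap]
    simpa using hpQ
  have hP'p : P'.IsPrime := inferInstance
  have : Q.LiesOver P' := ⟨rfl⟩
  apply hram P' hP'p hpP'
  have hover := liesOver_of_mem hp hpP'
  rw [← Ideal.ramificationIdx_eq_one_iff]
  have htower := Ideal.ramificationIdx_tower (R := ℤ) P' Q
  have hcardQ := card_inertia hp hpQ
  have hpos : 0 < Q.ramificationIdx ℤ := Ideal.ramificationIdx_pos _ _
  have hpos' : 0 < Q.ramificationIdx (𝓞 E) := Ideal.ramificationIdx_pos _ _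
  by_cases hpℓ : p = ℓ
  · subst hpℓ
    have hIQ : Q.inertia Gal(L/ℚ) = I :=
      le_antisymm (inertia_le_of_comm hcomm hp hpQ hP) (inertia_le_of_comm hcomm hp hP hpQ)
    have h1 : Nat.card (Q.inertia Gal(L/E)) = Q.ramificationIdx (𝓞 E) := by
      rw [Ideal.card_inertia_eq_ramificationIdxIn P' Q,
        Ideal.ramificationIdxIn_eq_ramificationIdx _ Q Gal(L/E)]
    have h2 : Q.inertia Gal(L/E) = ⊤ := by
      rw [eq_top_iff]
      intro g _
      intro x
      have h3 : (((IntermediateField.fixingSubgroupEquiv E).symm g : E.fixingSubgroup) :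
          Gal(L/ℚ)) ∈ I := by
        rw [← hfix]
        exact ((IntermediateField.fixingSubgroupEquiv E).symm g).2
      rw [← hIQ] at h3
      exact h3 x
    have h3 : Nat.card (Q.inertia Gal(L/E)) = Nat.card I := by
      rw [h2, ← hfix]
      rw [Nat.card_congr (IntermediateField.fixingSubgroupEquiv E).toEquiv]
      exact Nat.card_congr (Subgroup.topEquiv (G := Gal(L/E))).toEquiv
    rw [hIQ] at hcardQ
    rw [← h1, h3, ← hcardQ] at htower
    have h4 : 0 < Nat.card I := by rw [hcardQ]; exact hpos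
    have h5 : Ideal.ramificationIdx P' ℤ * Nat.card I = 1 * Nat.card I := by
      rw [one_mul]; exact htower.symm
    exact Nat.eq_of_mul_eq_mul_right h4 h5
  · have h1 := hun Q hQp p hp hpℓ hpQ
    rw [h1] at hcardQ
    have h2 : Q.ramificationIdx ℤ = 1 := by rw [← hcardQ]; simp
    rw [h2] at htower
    exact Nat.eq_one_of_mul_eq_one_right htower.symm

end Pool.Agent.H71.KW
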