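import Pool.Agent.H71.KW.Tower
import Pool.Agent.H68.FA.Frob

/-!
# Number fields attached to open normal subgroups of the absolute Galois group of `ℚ`
-/

set_option autoImplicit false

namespace Pool.Agent.H71.KW

open NumberField Pool.Agent.H68.FA

/-- The fixed field. -/
noncomputable abbrev FF (N : Subgroup GQ) : IntermediateField ℚ (AlgebraicClosure ℚ) :=
  IntermediateField.fixedField N

section

variable (N : Subgroup GQ) (hN : IsOpen (N : Set GQ))

include hN in
theorem fixing_FF : (FF N).fixingSubgroup = N :=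
  InfiniteGalois.fixingSubgroup_fixedField
    (⟨N, Subgroup.isClosed_of_isOpen N hN⟩ : ClosedSubgroup GQ)

include hN in
theorem mem_iff_fix (σ : GQ) : σ ∈ N ↔ ∀ x : FF N, σ x = x := by
  conv_lhs => rw [← fixing_FF N hN]
  rw [IntermediateField.mem_fixingSubgroup_iff]
  exact ⟨fun h x => h x x.2, fun h x hx => h ⟨x, hx⟩⟩

theorem rat_algebra_eq (E : IntermediateField ℚ (AlgebraicClosure ℚ)) :
    (E.algebra' : Algebra ℚ E) = DivisionRing.toRatAlgebra := Subsingleton.elim _ _

include hN in
theorem finite_FF : FiniteDimensional ℚ (FF N) := by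
  have h1 : IsOpen (FF N).fixingSubgroup.carrier := by
    rw [fixing_FF N hN]; exact hN
  have h2 := (InfiniteGalois.isOpen_iff_finite (FF N)).1 h1
  convert! h2

include hN in
theorem numberField_FF : NumberField (FF N) :=
  { to_charZero := inferInstance, to_finiteDimensional := finite_FF N hN }

include hN in
theorem isGalois_FF [N.Normal] : IsGalois ℚ (FF N) := by
  have h1 : (FF N).fixingSubgroup.Normal := by rw [fixing_FF N hN]; infer_instance
  have h2 := (InfiniteGalois.normal_iff_isGalois (FF N)).1 h1
  convert! h2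

end

/-- Restriction to the fixed field. -/
noncomputable def res (N : Subgroup GQ) [IsGalois ℚ (FF N)] : GQ →* Gal(FF N/ℚ) :=
  AlgEquiv.restrictNormalHom (FF N)

theorem res_apply (N : Subgroup GQ) [IsGalois ℚ (FF N)] (σ : GQ) (x : FF N) :
    ((res N σ x : FF N) : AlgebraicClosure ℚ) = σ x :=
  AlgEquiv.restrictNormal_commutes σ (FF N) x

theorem res_surjective (N : Subgroup GQ) [IsGalois ℚ (FF N)] : Function.Surjective (res N) :=
  AlgEquiv.restrictNormalHom_surjective _

theorem res_eq_one_iff (N : Subgroup GQ) (hN : IsOpen (N : Set GQ)) [IsGalois ℚ (FF N)] (σ : GQ) :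
    res N σ = 1 ↔ σ ∈ N := by
  rw [mem_iff_fix N hN]
  constructor
  · intro h x
    rw [← res_apply, h]
    rfl
  · intro h
    ext x
    rw [res_apply, h x]
    rfl

end Pool.Agent.H71.KW
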