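import Pool.Agent.H71.KW.Infinite

/-!
# Torsion free towers of abelian extensions of `ℚ`
-/

set_option autoImplicit false

namespace Pool.Agent.H71.KW

open NumberField Pool.Agent.H68.FA

/-- A torsion free `ℓ`-adic tower of abelian extensions of `ℚ`: the open normal subgroups are the
preimages of `ℓ^n X` under a continuous homomorphism to a torsion free `ℤ_ℓ`-module `X`. -/
structure Tower (ℓ : ℕ) (N : ℕ → Subgroup GQ) : Prop where
  isOpen : ∀ n, IsOpen (N n : Set GQ)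
  normal : ∀ n, (N n).Normal
  le : ∀ n, N (n + 1) ≤ N 1
  comm : ∀ n (σ τ : GQ), σ * τ * σ⁻¹ * τ⁻¹ ∈ N n
  pow : ∀ n (σ : GQ), σ ^ (ℓ ^ n) ∈ N n
  tor : ∀ n (σ : GQ) (k : ℕ), σ ∉ N 1 → σ ^ k ∈ N n → ℓ ^ n ∣ k

theorem res_comm {N : Subgroup GQ} (hN : IsOpen (N : Set GQ)) [IsGalois ℚ (FF N)]
    (hcomm : ∀ σ τ : GQ, σ * τ * σ⁻¹ * τ⁻¹ ∈ N) (a b : Gal(FF N/ℚ)) : a * b = b * a := by
  obtain ⟨σ, rfl⟩ := res_surjective N a
  obtain ⟨τ, rfl⟩ := res_surjective N b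
  have h1 := (res_eq_one_iff N hN _).2 (hcomm σ τ)
  rw [map_mul, map_mul, map_mul, map_inv, map_inv] at h1
  rw [mul_inv_eq_one, mul_inv_eq_iff_eq_mul] at h1
  exact h1

/-- The first layer of a torsion free tower is unramified outside `ℓ`. -/
theorem Tower.unramified {ℓ : ℕ} [hℓ : Fact ℓ.Prime] {N : ℕ → Subgroup GQ} (h : Tower ℓ N)
    {q : ℕ} (hq : q.Prime) (hqℓ : q ≠ ℓ) (𝔮 : Ideal (𝓞 (FF (N 1)))) [h𝔮 : 𝔮.IsPrime]
    (hq𝔮 : (q : 𝓞 (FF (N 1))) ∈ 𝔮) : 𝔮.inertia Gal(FF (N 1)/ℚ) = ⊥ := by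
  by_contra hne
  obtain ⟨n, hn⟩ : ∃ n, q < ℓ ^ (n + 1) := by
    refine ⟨q, lt_of_lt_of_le (Nat.lt_pow_self hℓ.out.one_lt) ?_⟩
    exact Nat.pow_le_pow_right hℓ.out.pos (by omega)
  have hn1 := h.normal 1
  have hn2 := h.normal (n+1)
  have e1 := numberField_FF (N 1) (h.isOpen 1)
  have e2 := isGalois_FF (N 1) (h.isOpen 1)
  have l1 := numberField_FF (N (n+1)) (h.isOpen (n+1))
  have l2 := isGalois_FF (N (n+1)) (h.isOpen (n+1))
  have hle : FF (N 1) ≤ FF (N (n+1)) := IntermediateField.fixedField_antitone (h.le n)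
  letI : Algebra (FF (N 1)) (FF (N (n+1))) := (IntermediateField.inclusion hle).toRingHom.toAlgebra
  obtain ⟨Q, hQ, hqQ, σ, hσ, x, hx⟩ := exists_inertia_lift (L := FF (N (n+1))) hq hq𝔮 hne
  obtain ⟨τ, rfl⟩ := res_surjective (N (n+1)) σ
  have hτ : τ ∉ N 1 := by
    intro h1
    rw [mem_iff_fix (N 1) (h.isOpen 1)] at h1
    apply hx
    apply Subtype.ext
    rw [res_apply]
    exact h1 x
  have hpow : res (N (n+1)) τ ^ (ℓ ^ (n+1)) = 1 := by
    rw [← map_pow, res_eq_one_iff _ (h.isOpen (n+1))]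
    exact h.pow (n+1) τ
  have hqn : ¬ q ∣ ℓ ^ (n+1) := by
    intro h1
    have h2 := hq.dvd_of_dvd_pow h1
    exact hqℓ ((Nat.prime_dvd_prime_iff_eq hq hℓ.out).1 h2)
  have h1 := tame (res_comm (h.isOpen (n+1)) (h.comm (n+1))) hq hqQ hσ hpow hqn
  rw [← map_pow, res_eq_one_iff _ (h.isOpen (n+1))] at h1
  have h2 := Nat.le_of_dvd (by have := hq.two_le; omega) (h.tor (n+1) τ (q-1) hτ h1)
  omega

theorem card_gal {N : Subgroup GQ} (hN : IsOpen (N : Set GQ)) [IsGalois ℚ (FF N)] :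
    Nat.card Gal(FF N/ℚ) = N.index := by
  have hker : (res N).ker = N := by
    ext σ
    rw [MonoidHom.mem_ker, res_eq_one_iff N hN]
  rw [← Nat.card_congr (QuotientGroup.quotientKerEquivOfSurjective (res N)
    (res_surjective N)).toEquiv, hker]
  rfl

/-- The first layer of a torsion free tower is not of type `(ℓ, ℓ)`, for `ℓ` odd. -/
theorem Tower.index_ne {ℓ : ℕ} [hℓ : Fact ℓ.Prime] (hℓ2 : ℓ ≠ 2) {N : ℕ → Subgroup GQ}
    (h : Tower ℓ N) : (N 1).index ≠ ℓ ^ 2 := by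
  intro hindex
  have hn1 := h.normal 1
  have e1 := numberField_FF (N 1) (h.isOpen 1)
  have e2 := isGalois_FF (N 1) (h.isOpen 1)
  obtain ⟨Q, q, hQ, hq, hqℓ, hqQ, hne⟩ := exists_ramified (L := FF (N 1)) hℓ2
    (res_comm (h.isOpen 1) (h.comm 1)) (fun a => by
      obtain ⟨σ, rfl⟩ := res_surjective (N 1) a
      rw [← map_pow, res_eq_one_iff _ (h.isOpen 1)]
      have := h.pow 1 σ
      rwa [pow_one] at this)
    (by rw [card_gal (h.isOpen 1), hindex])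
  exact hne (h.unramified hq hqℓ Q hqQ)

end Pool.Agent.H71.KW
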