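import Pool.Agent.H71.KW.Core
import Pool.Agent.H71.KW.Inertia

/-!
# There is no abelian extension of `ℚ` of degree `ℓ²` and exponent `ℓ` ramified only at `ℓ` odd
-/

set_option autoImplicit false

namespace Pool.Agent.H71.KW

open NumberField IsDiscreteValuationRing

section

variable {A G : Type*} [CommRing A] [Group G] [MulSemiringAction G A] (P : Ideal A) [P.IsPrime]

theorem smul_mem_iff (hP : P.inertia G = ⊤) (g : G) (x : A) : g • x ∈ P ↔ x ∈ P := by
  have h1 : g ∈ P.inertia G := by rw [hP]; trivial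
  have h2 : g • x - x ∈ P := h1 x
  constructor
  · intro h
    have := P.sub_mem h h2
    simpa using this
  · intro h
    have := P.add_mem h2 h
    simpa using this

/-- The action on the localisation at a totally ramified prime. -/
noncomputable def locHom (hP : P.inertia G = ⊤) (g : G) :
    Localization.AtPrime P →+* Localization.AtPrime P :=
  Localization.localRingHom P P (MulSemiringAction.toRingHom G A g) (by
    ext x
    rw [Ideal.mem_comap]
    exact (smul_mem_iff P hP g x).symm)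

theorem locHom_algebraMap (hP : P.inertia G = ⊤) (g : G) (x : A) :
    locHom P hP g (algebraMap A _ x) = algebraMap A _ (g • x) := by
  rw [locHom, Localization.localRingHom_to_map]
  rfl

theorem locHom_one (hP : P.inertia G = ⊤) (x : Localization.AtPrime P) :
    locHom P hP (1 : G) x = x := by
  have h : locHom P hP (1 : G) = RingHom.id _ := by
    refine IsLocalization.ringHom_ext P.primeCompl ?_
    ext x
    simp [locHom_algebraMap]
  rw [h]; rfl

theorem locHom_mul (hP : P.inertia G = ⊤) (g g' : G) (x : Localization.AtPrime P) :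
    locHom P hP (g * g') x = locHom P hP g (locHom P hP g' x) := by
  have h : locHom P hP (g * g') = (locHom P hP g).comp (locHom P hP g') := by
    refine IsLocalization.ringHom_ext P.primeCompl ?_
    ext x
    simp [locHom_algebraMap, mul_smul]
  rw [h]; rfl

/-- The action on the localisation at a totally ramified prime. -/
noncomputable abbrev locAction (hP : P.inertia G = ⊤) :
    MulSemiringAction G (Localization.AtPrime P) where
  smul g x := locHom P hP g x
  one_smul x := locHom_one P hP x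
  mul_smul g g' x := locHom_mul P hP g g' x
  smul_zero g := map_zero _
  smul_add g := map_add _
  smul_one g := map_one _
  smul_mul g := map_mul _

end

section

variable {R : Type*} [CommRing R] [IsDomain R] [IsDiscreteValuationRing R]

theorem one_le_addVal_iff {x : R} : 1 ≤ addVal R x ↔ ¬ IsUnit x := by
  rw [← addVal_eq_zero_iff, ENat.one_le_iff_ne_zero]

/-- A ring homomorphism which preserves non-units does not decrease the valuation. -/
theorem addVal_le_map (φ : R →+* R) (hφ : ∀ x, ¬ IsUnit x → ¬ IsUnit (φ x)) (x : R) :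
    addVal R x ≤ addVal R (φ x) := by
  obtain ⟨ϖ, hϖ⟩ := exists_irreducible R
  by_cases hx : x = 0
  · simp [hx]
  obtain ⟨n, u, rfl⟩ := eq_unit_mul_pow_irreducible hx hϖ
  rw [addVal_def' u hϖ n, map_mul, map_pow, addVal_mul, addVal_pow]
  have h1 : 1 ≤ addVal R (φ ϖ) := one_le_addVal_iff.2 (hφ _ hϖ.not_isUnit)
  calc (n : ℕ∞) = n • (1 : ℕ∞) := by simp
    _ ≤ n • addVal R (φ ϖ) := by gcongr
    _ ≤ _ := le_add_self

end

section Main

variable {L : Type*} [Field L] [NumberField L] [IsGalois ℚ L]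

/-- The algebra map to the localisation at a prime is injective. -/
theorem algebraMap_loc_inj (P : Ideal (𝓞 L)) [P.IsPrime] :
    Function.Injective (algebraMap (𝓞 L) (Localization.AtPrime P)) :=
  IsLocalization.injective _ P.primeCompl_le_nonZeroDivisors

/-- No abelian extension of `ℚ` of degree `ℓ²` and exponent `ℓ` is totally ramified at the odd
prime `ℓ`. -/
theorem not_totally_ramified {ℓ : ℕ} [hℓf : Fact ℓ.Prime] (hℓ2 : ℓ ≠ 2)
    (hcomm : ∀ a b : Gal(L/ℚ), a * b = b * a) (hexp : ∀ a : Gal(L/ℚ), a ^ ℓ = 1)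
    (hcard : Nat.card Gal(L/ℚ) = ℓ ^ 2)
    (P : Ideal (𝓞 L)) [hPp : P.IsPrime] (hP : (ℓ : 𝓞 L) ∈ P) (hI : P.inertia Gal(L/ℚ) = ⊤) :
    False := by
  have hℓ := hℓf.out
  letI : MulSemiringAction Gal(L/ℚ) (Localization.AtPrime P) := locAction P hI
  have hsmul : ∀ (g : Gal(L/ℚ)) (x : (Localization.AtPrime P)), g • x = locHom P hI g x := fun _ _ => rfl
  have hsmulA : ∀ (g : Gal(L/ℚ)) (x : (𝓞 L)), g • (algebraMap (𝓞 L) (Localization.AtPrime P) x) = algebraMap (𝓞 L) (Localization.AtPrime P) (g • x) :=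
    fun g x => locHom_algebraMap P hI g x
  have hinj : Function.Injective (algebraMap (𝓞 L) (Localization.AtPrime P)) := algebraMap_loc_inj P
  have hPbot : P ≠ ⊥ := by
    intro h
    rw [h, Ideal.mem_bot] at hP
    exact hℓ.ne_zero (by exact_mod_cast hP)
  have hdvr : IsDiscreteValuationRing (Localization.AtPrime P) :=
    IsLocalization.AtPrime.isDiscreteValuationRing_of_dedekind_domain (𝓞 L) hPbot _
  -- units
  have hunit : ∀ x : (𝓞 L), IsUnit (algebraMap (𝓞 L) (Localization.AtPrime P) x) ↔ x ∉ P := fun x =>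
    IsLocalization.AtPrime.isUnit_to_map_iff (Localization.AtPrime P) P x
  have hv1 : ∀ x : (𝓞 L), 1 ≤ addVal (Localization.AtPrime P) (algebraMap (𝓞 L) (Localization.AtPrime P) x) ↔ x ∈ P := fun x => by
    rw [one_le_addVal_iff, hunit, not_not]
  have hv0 : ∀ x : (𝓞 L), x ∉ P → addVal (Localization.AtPrime P) (algebraMap (𝓞 L) (Localization.AtPrime P) x) = 0 := fun x hx => by
    rw [addVal_eq_zero_iff, hunit]; exact hx
  -- invariance
  have hinv : ∀ (g : Gal(L/ℚ)) (x : (Localization.AtPrime P)), addVal (Localization.AtPrime P) (g • x) = addVal (Localization.AtPrime P) x := by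
    have h1 : ∀ (g : Gal(L/ℚ)) (x : (Localization.AtPrime P)), addVal (Localization.AtPrime P) x ≤ addVal (Localization.AtPrime P) (g • x) := fun g x =>
      addVal_le_map (locHom P hI g) (fun y hy h => hy (by
        have h2 : IsUnit (locHom P hI g⁻¹ (locHom P hI g y)) := h.map _
        rw [← locHom_mul, inv_mul_cancel, locHom_one] at h2
        exact h2)) x
    intro g x
    refine le_antisymm ?_ (h1 g x)
    have h2 := h1 g⁻¹ (g • x)
    rwa [inv_smul_smul] at h2
  -- integers
  have hintP : ∀ k : ℤ, ((k : ℤ) : (𝓞 L)) ∈ P ↔ (ℓ : ℤ) ∣ k := by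
    intro k
    have := liesOver_of_mem hℓ hP
    rw [← Ideal.mem_span_singleton, this.over]
    simp [Ideal.mem_comap]
  have hvℓ : ∀ k : ℤ, addVal (Localization.AtPrime P) (k : (Localization.AtPrime P)) = ⊤ ∨ ∃ n : ℕ, addVal (Localization.AtPrime P) (k : (Localization.AtPrime P)) = n • addVal (Localization.AtPrime P) (ℓ : (Localization.AtPrime P)) := by
    intro k
    by_cases hk : k = 0
    · left; simp [hk]
    · right
      obtain ⟨b, hkb, hb⟩ := (Int.finiteMultiplicity_iff.2 ⟨by simpa using hℓ.ne_one, hk⟩ :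
          FiniteMultiplicity (ℓ : ℤ) k).exists_eq_pow_mul_and_not_dvd
      set n := multiplicity (ℓ : ℤ) k
      refine ⟨n, ?_⟩
      rw [hkb]
      have h1 : addVal (Localization.AtPrime P) ((b : ℤ) : (Localization.AtPrime P)) = 0 := by
        have h2 := hv0 (b : (𝓞 L)) (by rw [hintP]; exact hb)
        rwa [map_intCast] at h2
      rw [Int.cast_mul, Int.cast_pow, Int.cast_natCast, addVal_mul, addVal_pow, h1, add_zero]
  -- invariants
  have hfix : ∀ x : (Localization.AtPrime P), (∀ g : Gal(L/ℚ), g • x = x) →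
      addVal (Localization.AtPrime P) x = ⊤ ∨ ∃ n : ℕ, addVal (Localization.AtPrime P) x = n • addVal (Localization.AtPrime P) (ℓ : (Localization.AtPrime P)) := by
    intro x hx
    obtain ⟨a, s, rfl⟩ := IsLocalization.exists_mk'_eq P.primeCompl x
    classical
    haveI : Fintype Gal(L/ℚ) := Fintype.ofFinite _
    set x : (Localization.AtPrime P) := IsLocalization.mk' (Localization.AtPrime P) a s
    have hxs : x * algebraMap (𝓞 L) (Localization.AtPrime P) (s : (𝓞 L)) = algebraMap (𝓞 L) (Localization.AtPrime P) a := IsLocalization.mk'_spec (Localization.AtPrime P) a s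
    set N : (𝓞 L) := ∏ g : Gal(L/ℚ), g • (s : (𝓞 L)) with hN
    have hNfix : ∀ g : Gal(L/ℚ), g • N = N := by
      intro g
      rw [hN, Finset.smul_prod']
      simp only [smul_smul]
      exact Fintype.prod_equiv (Equiv.mulLeft g) _ _ (fun _ => rfl)
    obtain ⟨m, hm⟩ := Algebra.IsInvariant.isInvariant (A := ℤ) (G := Gal(L/ℚ)) N hNfix
    have hNP : N ∉ P := by
      intro h
      rw [hN, Ideal.IsPrime.prod_mem_iff] at h
      obtain ⟨g, _, hg⟩ := h
      exact s.2 ((smul_mem_iff P hI g _).1 hg)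
    set a' : (𝓞 L) := a * ∏ g ∈ Finset.univ.erase (1 : Gal(L/ℚ)), g • (s : (𝓞 L)) with ha'
    have hN' : N = s * ∏ g ∈ Finset.univ.erase (1 : Gal(L/ℚ)), g • (s : (𝓞 L)) := by
      rw [hN, ← Finset.mul_prod_erase _ _ (Finset.mem_univ (1 : Gal(L/ℚ))), one_smul]
    have hxN : x * algebraMap (𝓞 L) (Localization.AtPrime P) N = algebraMap (𝓞 L) (Localization.AtPrime P) a' := by
      rw [hN', map_mul, ← mul_assoc, hxs, ha', map_mul]
    have ha'fix : ∀ g : Gal(L/ℚ), g • a' = a' := by
      intro g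
      apply hinj
      rw [← hsmulA, ← hxN, smul_mul', hx g, hsmulA, hNfix]
    obtain ⟨k, hk⟩ := Algebra.IsInvariant.isInvariant (A := ℤ) (G := Gal(L/ℚ)) a' ha'fix
    have h1 : addVal (Localization.AtPrime P) x = addVal (Localization.AtPrime P) (k : (Localization.AtPrime P)) := by
      have h2 := congrArg (addVal (Localization.AtPrime P)) hxN
      rw [addVal_mul, hv0 N hNP, add_zero] at h2
      rw [h2, ← hk]
      simp
    rw [h1]
    exact hvℓ k
  -- the valuation of `ℓ`
  have hpow : ∀ (n : ℕ) (x : (𝓞 L)), x ∈ P ^ n → (n : ℕ∞) ≤ addVal (Localization.AtPrime P) (algebraMap (𝓞 L) (Localization.AtPrime P) x) := by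
    intro n
    induction n with
    | zero => intro x _; simp
    | succ n ih =>
      intro x hx
      rw [pow_succ] at hx
      refine Submodule.mul_induction_on hx (fun y hy z hz => ?_) (fun y z hy hz => ?_)
      · rw [map_mul, addVal_mul, Nat.cast_add, Nat.cast_one]
        exact add_le_add (ih y hy) ((hv1 z).2 hz)
      · rw [map_add]
        exact le_trans (le_min hy hz) (addVal_add)
  have hge : ((ℓ ^ 2 : ℕ) : ℕ∞) ≤ addVal (Localization.AtPrime P) (ℓ : (Localization.AtPrime P)) := by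
    have h1 : P.ramificationIdx ℤ = ℓ ^ 2 := by
      rw [← card_inertia hℓ hP, hI, ← hcard]
      exact Nat.card_congr (Subgroup.topEquiv (G := Gal(L/ℚ))).toEquiv
    have := liesOver_of_mem hℓ hP
    have h2 : (Ideal.span {(ℓ : ℤ)}).map (algebraMap ℤ (𝓞 L)) ≠ ⊥ := by
      intro h0
      have h3 : (ℓ : (𝓞 L)) ∈ (⊥ : Ideal (𝓞 L)) := by
        rw [← h0]
        have := Ideal.mem_map_of_mem (algebraMap ℤ (𝓞 L))
          (Ideal.mem_span_singleton_self (ℓ : ℤ))
        simpa using this
      rw [Ideal.mem_bot] at h3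
      exact hℓ.ne_zero (by exact_mod_cast h3)
    have h3 := Ideal.ramificationIdx'_eq_ramificationIdx' (Ideal.span {(ℓ : ℤ)}) P h2
    have h4 := Ideal.le_pow_ramificationIdx' (p := Ideal.span {(ℓ : ℤ)}) (P := P)
    rw [h3, h1] at h4
    have h5 : (ℓ : (𝓞 L)) ∈ P ^ (ℓ ^ 2) := by
      apply h4
      have := Ideal.mem_map_of_mem (algebraMap ℤ (𝓞 L)) (Ideal.mem_span_singleton_self (ℓ : ℤ))
      simpa using this
    have h6 := hpow _ _ h5
    rw [map_natCast] at h6
    exact h6
  obtain ⟨ϖ, hϖ⟩ := exists_irreducible (Localization.AtPrime P)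
  have hell : addVal (Localization.AtPrime P) (ℓ : (Localization.AtPrime P)) = ((ℓ ^ 2 : ℕ) : ℕ∞) := by
    classical
    haveI : Fintype Gal(L/ℚ) := Fintype.ofFinite _
    set N : (Localization.AtPrime P) := ∏ g : Gal(L/ℚ), g • ϖ with hN
    have hNfix : ∀ g : Gal(L/ℚ), g • N = N := by
      intro g
      rw [hN, Finset.smul_prod']
      simp only [smul_smul]
      exact Fintype.prod_equiv (Equiv.mulLeft g) _ _ (fun _ => rfl)
    have hvN : addVal (Localization.AtPrime P) N = ((ℓ ^ 2 : ℕ) : ℕ∞) := by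
      rw [hN, v_prod]
      simp only [hinv, addVal_uniformizer hϖ]
      rw [Finset.sum_const, Finset.card_univ, ← Nat.card_eq_fintype_card, hcard]
      simp
    rcases hfix N hNfix with h | ⟨n, h⟩
    · rw [hvN] at h
      exact absurd h (ENat.natCast_ne_top _)
    · rw [hvN] at h
      refine le_antisymm ?_ hge
      have hn : n ≠ 0 := by
        rintro rfl
        rw [zero_smul] at h
        have : ℓ ^ 2 = 0 := by exact_mod_cast h
        exact pow_ne_zero 2 hℓ.ne_zero this
      calc addVal (Localization.AtPrime P) (ℓ : (Localization.AtPrime P)) = 1 • addVal (Localization.AtPrime P) (ℓ : (Localization.AtPrime P)) := (one_smul _ _).symm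
        _ ≤ n • addVal (Localization.AtPrime P) (ℓ : (Localization.AtPrime P)) := nsmul_le_nsmul_left zero_le (Nat.one_le_iff_ne_zero.2 hn)
        _ = _ := h.symm
  -- residues
  have hresA : ∀ x : (𝓞 L), ∃ c : ℤ, x - c ∈ P := by
    intro x
    classical
    haveI : Fintype Gal(L/ℚ) := Fintype.ofFinite _
    set N : (𝓞 L) := ∏ g : Gal(L/ℚ), g • x with hN
    have hNfix : ∀ g : Gal(L/ℚ), g • N = N := by
      intro g
      rw [hN, Finset.smul_prod']
      simp only [smul_smul]
      exact Fintype.prod_equiv (Equiv.mulLeft g) _ _ (fun _ => rfl)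
    obtain ⟨m, hm⟩ := Algebra.IsInvariant.isInvariant (A := ℤ) (G := Gal(L/ℚ)) N hNfix
    refine ⟨m, ?_⟩
    have hchar : CharP ((𝓞 L) ⧸ P) ℓ := by
      have h0 : ((ℓ : ℕ) : (𝓞 L) ⧸ P) = 0 := by
        have := Ideal.Quotient.eq_zero_iff_mem.2 hP
        simpa using this
      have h1 : ringChar ((𝓞 L) ⧸ P) = ℓ := CharP.ringChar_of_prime_eq_zero hℓ h0
      rw [← h1]
      infer_instance
    rw [← Ideal.Quotient.eq_zero_iff_mem, map_sub, sub_eq_zero]
    have hx : ∀ g : Gal(L/ℚ), Ideal.Quotient.mk P (g • x) = Ideal.Quotient.mk P x := by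
      intro g
      rw [Ideal.Quotient.eq]
      have h1 : g ∈ P.inertia Gal(L/ℚ) := by rw [hI]; trivial
      exact h1 x
    have h1 : Ideal.Quotient.mk P N = (Ideal.Quotient.mk P x) ^ (ℓ ^ 2) := by
      rw [hN, map_prod]
      simp only [hx]
      rw [Finset.prod_const, Finset.card_univ, ← Nat.card_eq_fintype_card, hcard]
    have h2 : Ideal.Quotient.mk P N = (m : (𝓞 L) ⧸ P) := by
      rw [← hm]; simp
    have h3 : ((m : ℤ) : (𝓞 L) ⧸ P) ^ (ℓ ^ 2) = m := by
      have h4 : ∀ n : ℕ, ((m : ℤ) : (𝓞 L) ⧸ P) ^ (ℓ ^ n) = m := by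
        intro n
        have h5 := ZMod.pow_card_pow (n := n) ((m : ℤ) : ZMod ℓ)
        have h6 := congrArg (ZMod.castHom (dvd_refl ℓ) ((𝓞 L) ⧸ P)) h5
        rw [map_pow, map_intCast] at h6
        exact h6
      exact h4 2
    have h4 : (Ideal.Quotient.mk P x - (m : (𝓞 L) ⧸ P)) ^ (ℓ ^ 2) = 0 := by
      rw [sub_pow_char_pow, h3, ← h1, h2, sub_self]
    have h5 := pow_eq_zero_iff (pow_ne_zero 2 hℓ.ne_zero) |>.1 h4
    rw [sub_eq_zero] at h5
    rw [h5, map_intCast]
  have hres : ∀ x : (Localization.AtPrime P), ∃ c : ℤ, 1 ≤ addVal (Localization.AtPrime P) (x - c) := by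
    intro x
    obtain ⟨a, s, rfl⟩ := IsLocalization.exists_mk'_eq P.primeCompl x
    set x : (Localization.AtPrime P) := IsLocalization.mk' (Localization.AtPrime P) a s
    have hxs : x * algebraMap (𝓞 L) (Localization.AtPrime P) (s : (𝓞 L)) = algebraMap (𝓞 L) (Localization.AtPrime P) a := IsLocalization.mk'_spec (Localization.AtPrime P) a s
    obtain ⟨ca, hca⟩ := hresA a
    obtain ⟨cs, hcs⟩ := hresA s
    have h1 : ¬ (ℓ : ℤ) ∣ cs := by
      intro h
      rw [← hintP] at h
      have := P.add_mem hcs h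
      rw [sub_add_cancel] at this
      exact s.2 this
    have hco : IsCoprime (ℓ : ℤ) cs :=
      ((Nat.prime_iff_prime_int.1 hℓ).coprime_iff_not_dvd).2 h1
    obtain ⟨u, w, huw⟩ := hco
    refine ⟨ca * w, ?_⟩
    have h2 : addVal (Localization.AtPrime P) ((x - ((ca * w : ℤ) : (Localization.AtPrime P))) * algebraMap (𝓞 L) (Localization.AtPrime P) (s : (𝓞 L))) =
        addVal (Localization.AtPrime P) (x - ((ca * w : ℤ) : (Localization.AtPrime P))) := by
      rw [addVal_mul, hv0 _ s.2, add_zero]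
    rw [← h2, sub_mul, hxs]
    have h3 : algebraMap (𝓞 L) (Localization.AtPrime P) a - ((ca * w : ℤ) : (Localization.AtPrime P)) * algebraMap (𝓞 L) (Localization.AtPrime P) (s : (𝓞 L)) =
        algebraMap (𝓞 L) (Localization.AtPrime P) (a - ((ca * w : ℤ) : (𝓞 L)) * s) := by
      rw [map_sub, map_mul, map_intCast]
    rw [h3, hv1]
    have h4 : a - ((ca * w : ℤ) : (𝓞 L)) * s = (a - ca) - ((ca * w : ℤ) : (𝓞 L)) * (s - cs) +
        ((ca * (u * ℓ) : ℤ) : (𝓞 L)) := by
      have h5 : ((u * ℓ + w * cs : ℤ) : (𝓞 L)) = 1 := by rw [huw]; simp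
      push_cast at h5 ⊢
      linear_combination (-(ca : (𝓞 L))) * h5
    rw [h4]
    refine P.add_mem (P.sub_mem hca (P.mul_mem_left _ hcs)) ?_
    rw [hintP]
    exact ⟨ca * u, by ring⟩
  have hram : Ram ℓ (addVal (Localization.AtPrime P)) Gal(L/ℚ) := {
    inv := hinv
    dvd := fun x y h => addVal_le_iff_dvd.1 h
    res := hres
    fix := fun x hx => by
      rcases hfix x hx with h | ⟨n, h⟩
      · exact Or.inl h
      · right
        refine ⟨n, ?_⟩
        rw [h, hell]
        simp
    ell := hell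
    unif := ⟨ϖ, addVal_uniformizer hϖ⟩ }
  exact core hℓ2 (addVal (Localization.AtPrime P)) hram hcard hcomm hexp

/-- An abelian extension of `ℚ` of degree `ℓ²` and exponent `ℓ` (`ℓ` odd) is ramified at some
prime different from `ℓ`. -/
theorem exists_ramified {ℓ : ℕ} [hℓf : Fact ℓ.Prime] (hℓ2 : ℓ ≠ 2)
    (hcomm : ∀ a b : Gal(L/ℚ), a * b = b * a) (hexp : ∀ a : Gal(L/ℚ), a ^ ℓ = 1)
    (hcard : Nat.card Gal(L/ℚ) = ℓ ^ 2) :
    ∃ (Q : Ideal (𝓞 L)) (q : ℕ), Q.IsPrime ∧ q.Prime ∧ q ≠ ℓ ∧ (q : 𝓞 L) ∈ Q ∧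
      Q.inertia Gal(L/ℚ) ≠ ⊥ := by
  by_contra hcon
  push Not at hcon
  have hℓ := hℓf.out
  have := isMaximal_span hℓ
  obtain ⟨P, hPmax, hPover⟩ := Ideal.exists_maximal_ideal_liesOver_of_isIntegral (S := 𝓞 L)
    (Ideal.span {(ℓ : ℤ)})
  have hPp : P.IsPrime := hPmax.isPrime
  have hP : (ℓ : 𝓞 L) ∈ P := by
    have : (ℓ : ℤ) ∈ P.under ℤ := by
      rw [← hPover.over]
      exact Ideal.mem_span_singleton_self _
    simpa using this
  exact not_totally_ramified hℓ2 hcomm hexp hcard P hP
    (inertia_eq_top hcomm hℓ (fun Q hQ q hq hqℓ hqQ => hcon Q q hQ hq hqℓ hqQ) P hP)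

end Main

end Pool.Agent.H71.KW
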