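import Pool.Agent.H71.KW.RankOne

/-!
# Torsion free pro-`ℓ` abelian quotients of the absolute Galois group of `ℚ` are procyclic
-/

set_option autoImplicit false

namespace Pool.Agent.H71.KW

open NumberField Pool.Agent.H68.FA

/-- A decreasing sequence of open normal subgroups with abelian quotients of `ℓ`-power order, such
that the limit of the quotients is torsion free. -/
structure Tow (ℓ : ℕ) (N : ℕ → Subgroup GQ) : Prop where
  isOpen : ∀ n, IsOpen (N n : Set GQ)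
  normal : ∀ n, (N n).Normal
  anti : Antitone N
  comm : ∀ n (σ τ : GQ), σ * τ * σ⁻¹ * τ⁻¹ ∈ N n
  pow : ∀ n (σ : GQ), σ ^ (ℓ ^ n) ∈ N n
  tor : ∀ (σ : GQ) (k : ℕ), 0 < k → (∀ n, σ ^ k ∈ N n) → ∀ n, σ ∈ N n

/-- All layers are unramified outside `ℓ`. -/
theorem Tow.unramified {ℓ : ℕ} [hℓ : Fact ℓ.Prime] {N : ℕ → Subgroup GQ} (h : Tow ℓ N)
    {N' : Subgroup GQ} (hN' : IsOpen (N' : Set GQ)) [hn' : N'.Normal] {n : ℕ} (hle : N n ≤ N')
    {q : ℕ} (hq : q.Prime) (hqℓ : q ≠ ℓ) (𝔮 : Ideal (𝓞 (FF N'))) [h𝔮 : 𝔮.IsPrime]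
    (hq𝔮 : (q : 𝓞 (FF N')) ∈ 𝔮) : 𝔮.inertia Gal(FF N'/ℚ) = ⊥ := by
  by_contra hne
  have hq1 : 0 < q - 1 := by have := hq.two_le; omega
  have key : ∀ k : ℕ, ∃ τ : GQ, τ ∉ N' ∧ τ ^ (q - 1) ∈ N (n + k) := by
    intro k
    have hn2 := h.normal (n+k)
    have e1 := numberField_FF N' hN'
    have e2 := isGalois_FF N' hN'
    have l1 := numberField_FF (N (n+k)) (h.isOpen (n+k))
    have l2 := isGalois_FF (N (n+k)) (h.isOpen (n+k))
    have hle' : FF N' ≤ FF (N (n+k)) :=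
      IntermediateField.fixedField_antitone ((h.anti (Nat.le_add_right n k)).trans hle)
    letI : Algebra (FF N') (FF (N (n+k))) := (IntermediateField.inclusion hle').toRingHom.toAlgebra
    obtain ⟨Q, hQ, hqQ, σ, hσ, x, hx⟩ := exists_inertia_lift (L := FF (N (n+k))) hq hq𝔮 hne
    obtain ⟨τ, rfl⟩ := res_surjective (N (n+k)) σ
    have hτ : τ ∉ N' := by
      intro h1
      rw [mem_iff_fix N' hN'] at h1
      apply hx
      apply Subtype.ext
      rw [res_apply]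
      exact h1 x
    have hpow : res (N (n+k)) τ ^ (ℓ ^ (n+k)) = 1 := by
      rw [← map_pow, res_eq_one_iff _ (h.isOpen (n+k))]
      exact h.pow (n+k) τ
    have hqn : ¬ q ∣ ℓ ^ (n+k) := by
      intro h1
      have h2 := hq.dvd_of_dvd_pow h1
      exact hqℓ ((Nat.prime_dvd_prime_iff_eq hq hℓ.out).1 h2)
    have h1 := tame (res_comm (h.isOpen (n+k)) (h.comm (n+k))) hq hqQ hσ hpow hqn
    rw [← map_pow, res_eq_one_iff _ (h.isOpen (n+k))] at h1
    exact ⟨τ, hτ, h1⟩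
  -- compactness
  let C : ℕ → Set GQ := fun k => {τ | τ ∉ N' ∧ τ ^ (q - 1) ∈ N (n + k)}
  have hCclosed : ∀ k, IsClosed (C k) := by
    intro k
    refine IsClosed.inter ?_ ?_
    · exact (isClosed_compl_iff.2 hN')
    · exact (Subgroup.isClosed_of_isOpen _ (h.isOpen (n+k))).preimage (continuous_pow (q-1))
  have hne' : (⋂ k, C k).Nonempty := by
    apply IsCompact.nonempty_iInter_of_sequence_nonempty_isCompact_isClosed
    · intro k τ hτ
      exact ⟨hτ.1, h.anti (by omega : n + k ≤ n + (k+1)) hτ.2⟩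
    · exact fun k => key k
    · exact (hCclosed 0).isCompact
    · exact hCclosed
  obtain ⟨σ, hσ⟩ := hne'
  rw [Set.mem_iInter] at hσ
  exact (hσ 0).1 (hle (h.tor σ (q-1) hq1 (fun k => h.anti (by omega : k ≤ n + k) (hσ k).2) n))

theorem pow_index_mem' {G : Type*} [Group G] (H : Subgroup G) [H.Normal] (g : G) :
    g ^ H.index ∈ H := by
  rw [← QuotientGroup.eq_one_iff, QuotientGroup.mk_pow, Subgroup.index]
  exact pow_card_eq_one'

/-- The open subgroups of index `ℓ` above a layer coincide. -/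
theorem Tow.unique {ℓ : ℕ} [hℓ : Fact ℓ.Prime] {N : ℕ → Subgroup GQ} (h : Tow ℓ N)
    {N₁ N₂ : Subgroup GQ} (h₁ : IsOpen (N₁ : Set GQ)) (h₂ : IsOpen (N₂ : Set GQ))
    (hn₁ : N₁.Normal) (hn₂ : N₂.Normal) {n₁ n₂ : ℕ} (hle₁ : N n₁ ≤ N₁) (hle₂ : N n₂ ≤ N₂)
    (hi₁ : N₁.index = ℓ) (hi₂ : N₂.index = ℓ) : N₁ = N₂ := by
  by_cases hℓ2 : ℓ = 2
  · subst hℓ2
    have key : ∀ {M : Subgroup GQ} (hM : IsOpen (M : Set GQ)) (hn : M.Normal) {n : ℕ}
        (hle : N n ≤ M) (hi : M.index = 2), ∃ s : AlgebraicClosure ℚ, s ^ 2 = 2 ∧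
          ∀ σ : GQ, σ s = s ↔ σ ∈ M := by
      intro M hM hn n hle hi
      have e1 := numberField_FF M hM
      have e2 := isGalois_FF M hM
      obtain ⟨c, hcc, hc⟩ := exists_conj
      have hcM : c ∈ M := by
        apply hle
        apply h.tor c 2 (by norm_num)
        intro k
        rw [pow_two, hcc]
        exact one_mem _
      obtain ⟨s, hs2, hs⟩ := quadratic (K := FF M)
        (by rw [card_gal hM, hi])
        (fun q hq hq2 P hP hqP => h.unramified hM hle hq hq2 P hqP)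
        (fun x d hx => hc (x : AlgebraicClosure ℚ) d
          ((mem_iff_fix _ hM c).1 hcM x) (by
            have := congrArg (fun z : FF M => (z : AlgebraicClosure ℚ)) hx
            simpa using this))
      refine ⟨s, ?_, fun σ => ?_⟩
      · have := congrArg (fun z : FF M => (z : AlgebraicClosure ℚ)) hs2
        simp only [IntermediateField.coe_pow] at this
        rw [this]
        rfl
      · constructor
        · intro h
          rw [← res_eq_one_iff _ hM]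
          apply hs
          apply Subtype.ext
          rw [res_apply]
          exact h
        · intro h
          exact (mem_iff_fix _ hM σ).1 h s
    obtain ⟨s, hs2, hs⟩ := key h₁ hn₁ hle₁ hi₁
    obtain ⟨t, ht2, ht⟩ := key h₂ hn₂ hle₂ hi₂
    ext σ
    rw [← hs, ← ht]
    have h3 : (t - s) * (t + s) = 0 := by linear_combination ht2 - hs2
    rcases mul_eq_zero.1 h3 with h3 | h3
    · rw [sub_eq_zero.1 h3]
    · rw [eq_neg_of_add_eq_zero_left h3, map_neg, neg_inj]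
  · by_contra hne
    have hlp := hℓ.out
    have h12 : N₂.relIndex N₁ = ℓ := by
      have h3 : N₂.relIndex N₁ ∣ ℓ := by rw [← hi₂]; exact Subgroup.relIndex_dvd_index_of_normal _ _
      rcases (Nat.dvd_prime hlp).1 h3 with h4 | h4
      · exfalso
        apply hne
        have h5 : N₁ ≤ N₂ := Subgroup.relIndex_eq_one.1 h4
        apply le_antisymm h5
        have h6 := Subgroup.relIndex_mul_index h5
        rw [hi₁, hi₂] at h6
        have h7 : N₁.relIndex N₂ = 1 := by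
          have := hlp.pos
          exact Nat.eq_of_mul_eq_mul_right this (by rw [h6, one_mul])
        exact Subgroup.relIndex_eq_one.1 h7
      · exact h4
    have hindex : (N₁ ⊓ N₂).index = ℓ ^ 2 := by
      have h3 := Subgroup.relIndex_mul_index (inf_le_left : N₁ ⊓ N₂ ≤ N₁)
      rw [inf_comm, Subgroup.inf_relIndex_right] at h3
      rw [inf_comm, ← h3, h12, hi₁, sq]
    have hop : IsOpen ((N₁ ⊓ N₂ : Subgroup GQ) : Set GQ) := h₁.inter h₂
    have e0 : (N₁ ⊓ N₂).Normal := inferInstance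
    have e1 := numberField_FF (N₁ ⊓ N₂) hop
    have e2 := isGalois_FF (N₁ ⊓ N₂) hop
    have hle : N (max n₁ n₂) ≤ N₁ ⊓ N₂ :=
      le_inf ((h.anti (le_max_left _ _)).trans hle₁) ((h.anti (le_max_right _ _)).trans hle₂)
    obtain ⟨Q, q, hQ, hq, hqℓ, hqQ, hne⟩ := exists_ramified (L := FF (N₁ ⊓ N₂)) hℓ2
      (res_comm hop (fun σ τ => hle (h.comm _ σ τ))) (fun a => by
        obtain ⟨σ, rfl⟩ := res_surjective (N₁ ⊓ N₂) a
        rw [← map_pow, res_eq_one_iff _ hop]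
        refine ⟨?_, ?_⟩
        · have := pow_index_mem' N₁ σ
          rwa [hi₁] at this
        · have := pow_index_mem' N₂ σ
          rwa [hi₂] at this)
      (by rw [card_gal hop, hindex])
    exact hne (h.unramified hop hle hq hqℓ Q hqQ)

/-- A proper subgroup above a layer is contained in a subgroup of index `ℓ`. -/
theorem Tow.exists_index {ℓ : ℕ} [hℓ : Fact ℓ.Prime] {N : ℕ → Subgroup GQ} (h : Tow ℓ N)
    {H : Subgroup GQ} {n : ℕ} (hle : N n ≤ H) (hH : H ≠ ⊤) :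
    ∃ M : Subgroup GQ, H ≤ M ∧ M.Normal ∧ M.index = ℓ := by
  have hHn : H.Normal := ⟨fun a ha b => by
    have h1 := hle (h.comm n b a)
    have h2 := H.mul_mem h1 ha
    simpa using h2⟩
  have hHo : IsOpen (H : Set GQ) := Subgroup.isOpen_mono hle (h.isOpen n)
  have hfin : Finite (GQ ⧸ H) := Subgroup.quotient_finite_of_isOpen H hHo
  have hcomm : ∀ a b : GQ ⧸ H, a * b = b * a := by
    intro a b
    induction a using QuotientGroup.induction_on with | _ σ => ?_
    induction b using QuotientGroup.induction_on with | _ τ => ?_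
    have h1 : ((σ * τ * σ⁻¹ * τ⁻¹ : GQ) : GQ ⧸ H) = 1 :=
      (QuotientGroup.eq_one_iff _).2 (hle (h.comm n σ τ))
    rw [QuotientGroup.mk_mul, QuotientGroup.mk_mul, QuotientGroup.mk_mul, QuotientGroup.mk_inv,
      QuotientGroup.mk_inv, mul_inv_eq_one, mul_inv_eq_iff_eq_mul] at h1
    exact h1
  have hp : IsPGroup ℓ (GQ ⧸ H) := by
    intro a
    induction a using QuotientGroup.induction_on with | _ σ => ?_
    refine ⟨n, ?_⟩
    rw [← QuotientGroup.mk_pow, QuotientGroup.eq_one_iff]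
    exact hle (h.pow n σ)
  obtain ⟨k, hk⟩ := IsPGroup.iff_card.1 hp
  rcases k with _ | k
  · exfalso
    apply hH
    rw [← Subgroup.index_eq_one, Subgroup.index, hk, pow_zero]
  · obtain ⟨K, hK⟩ := Sylow.exists_subgroup_card_pow_prime (G := GQ ⧸ H) ℓ (n := k)
      (by rw [hk]; exact pow_dvd_pow _ (by omega))
    have hKn : K.Normal := ⟨fun a ha b => by rw [hcomm b a, mul_assoc, mul_inv_cancel, mul_one]; exact ha⟩
    refine ⟨K.comap (QuotientGroup.mk' H), ?_, inferInstance, ?_⟩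
    · intro σ hσ
      rw [Subgroup.mem_comap, QuotientGroup.mk'_apply, (QuotientGroup.eq_one_iff σ).2 hσ]
      exact one_mem _
    · rw [Subgroup.index_comap_of_surjective _ (QuotientGroup.mk'_surjective H)]
      have h1 := K.card_mul_index
      rw [hK, hk, pow_succ] at h1
      exact Nat.eq_of_mul_eq_mul_left (pow_pos hℓ.out.pos k) h1

/-- **Procyclicity.** -/
theorem Tow.procyclic {ℓ : ℕ} [hℓ : Fact ℓ.Prime] {N : ℕ → Subgroup GQ} (h : Tow ℓ N) :
    ∃ σ₀ : GQ, ∀ (n : ℕ) (σ : GQ), ∃ m : ℕ, σ₀ ^ m * σ⁻¹ ∈ N n := by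
  by_cases hall : ∀ n, N n = ⊤
  · exact ⟨1, fun n σ => ⟨0, by rw [hall]; exact Subgroup.mem_top _⟩⟩
  push Not at hall
  obtain ⟨n₀, hn₀⟩ := hall
  obtain ⟨M, hM, hMn, hMi⟩ := h.exists_index le_rfl hn₀
  have hMt : M ≠ ⊤ := by
    intro h1
    rw [h1, Subgroup.index_top] at hMi
    exact hℓ.out.one_lt.ne hMi
  obtain ⟨σ₀, hσ₀⟩ : ∃ σ₀, σ₀ ∉ M := by
    by_contra hcon
    push Not at hcon
    exact hMt ((Subgroup.eq_top_iff' M).2 hcon)
  refine ⟨σ₀, fun n σ => ?_⟩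
  have hnn := h.normal n
  have htop : Subgroup.zpowers σ₀ ⊔ N n = ⊤ := by
    by_contra hne
    obtain ⟨M', hM', hMn', hMi'⟩ := h.exists_index (n := n) le_sup_right hne
    have : M = M' := h.unique (Subgroup.isOpen_mono hM (h.isOpen n₀))
      (Subgroup.isOpen_mono (le_sup_right.trans hM') (h.isOpen n)) hMn hMn' hM
      (le_sup_right.trans hM') hMi hMi'
    apply hσ₀
    rw [this]
    exact hM' (Subgroup.mem_sup_left (Subgroup.mem_zpowers σ₀))
  have hσ : σ ∈ Subgroup.zpowers σ₀ ⊔ N n := by rw [htop]; exact Subgroup.mem_top _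
  rw [Subgroup.mem_sup_of_normal_right] at hσ
  obtain ⟨y, hy, z, hz, hyz⟩ := hσ
  obtain ⟨k, rfl⟩ := Subgroup.mem_zpowers_iff.1 hy
  -- replace the integer by a natural number
  have hℓn : 0 < ℓ ^ n := pow_pos hℓ.out.pos n
  set m : ℕ := (k % (ℓ ^ n : ℕ)).toNat with hm
  have hmk : (m : ℤ) = k % (ℓ ^ n : ℕ) := Int.toNat_of_nonneg (Int.emod_nonneg _ (by positivity))
  refine ⟨m, ?_⟩
  have h1 : σ₀ ^ k = σ₀ ^ m * (σ₀ ^ (ℓ ^ n)) ^ (k / (ℓ ^ n : ℕ)) := by
    rw [← zpow_natCast σ₀ m, ← zpow_natCast σ₀ (ℓ ^ n), ← zpow_mul, ← zpow_add, hmk]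
    congr 1
    exact (Int.emod_add_mul_ediv k (ℓ ^ n : ℕ)).symm
  have h2 : (σ₀ ^ (ℓ ^ n)) ^ (k / (ℓ ^ n : ℕ)) ∈ N n := (N n).zpow_mem (h.pow n σ₀) _
  have h3 : σ₀ ^ m * σ⁻¹ = σ₀ ^ m * (z⁻¹ * ((σ₀ ^ (ℓ ^ n)) ^ (k / (ℓ ^ n : ℕ)))⁻¹) * (σ₀ ^ m)⁻¹ := by
    rw [← hyz, h1]
    group
  rw [h3]
  exact hnn.conj_mem _ ((N n).mul_mem ((N n).inv_mem hz) ((N n).inv_mem h2)) _

end Pool.Agent.H71.KW
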