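import Pool.Agent.H71.KW.Key

/-!
# The `ℤ_ℓ`-module of continuous homomorphisms from the absolute Galois group of `ℚ` to `ℤ_ℓ`
-/

set_option autoImplicit false

namespace Pool.Agent.H71.KW

open NumberField Pool.Agent.H68.FA

/-- A continuous additive character of the absolute Galois group of `ℚ`. -/
structure IsChar {ℓ : ℕ} [Fact ℓ.Prime] (f : GQ → ℤ_[ℓ]) : Prop where
  cont : Continuous f
  add : ∀ σ τ : GQ, f (σ * τ) = f σ + f τ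

variable {ℓ : ℕ} [hℓ : Fact ℓ.Prime]

theorem IsChar.one {f : GQ → ℤ_[ℓ]} (h : IsChar f) : f 1 = 0 := by
  have h1 := h.add 1 1
  rw [one_mul] at h1
  simpa using h1

theorem IsChar.inv {f : GQ → ℤ_[ℓ]} (h : IsChar f) (σ : GQ) : f σ⁻¹ = -f σ := by
  have h1 := h.add σ⁻¹ σ
  rw [inv_mul_cancel, h.one] at h1
  exact eq_neg_of_add_eq_zero_left h1.symm

theorem IsChar.pow {f : GQ → ℤ_[ℓ]} (h : IsChar f) (σ : GQ) (n : ℕ) : f (σ ^ n) = n * f σ := by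
  induction n with
  | zero => simp [h.one]
  | succ n ih => rw [pow_succ, h.add, ih]; push_cast; ring

theorem IsChar.sub_smul {f g : GQ → ℤ_[ℓ]} (hf : IsChar f) (hg : IsChar g) (a : ℤ_[ℓ]) :
    IsChar (fun σ => f σ - a * g σ) := by
  refine ⟨hf.cont.sub (continuous_const.mul hg.cont), fun σ τ => ?_⟩
  rw [hf.add, hg.add]; ring

theorem isOpen_dvd (n : ℕ) : IsOpen {x : ℤ_[ℓ] | (ℓ : ℤ_[ℓ]) ^ n ∣ x} := by
  have h1 : {x : ℤ_[ℓ] | (ℓ : ℤ_[ℓ]) ^ n ∣ x} = Metric.closedBall 0 ((ℓ : ℝ) ^ (-n : ℤ)) := by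
    ext x
    rw [Set.mem_ofPred_eq, mem_closedBall_zero_iff, PadicInt.norm_le_pow_iff_mem_span_pow,
      Ideal.mem_span_singleton]
  rw [h1]
  refine IsUltrametricDist.isOpen_closedBall _ ?_
  have : (0 : ℝ) < ℓ := by exact_mod_cast hℓ.out.pos
  positivity

/-- The subgroups of the tower of a pair of characters. -/
def NN (f g : GQ → ℤ_[ℓ]) (hf : IsChar f) (hg : IsChar g) (n : ℕ) : Subgroup GQ where
  carrier := {σ | (ℓ : ℤ_[ℓ]) ^ n ∣ f σ ∧ (ℓ : ℤ_[ℓ]) ^ n ∣ g σ}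
  mul_mem' := fun {a b} ha hb => by
    simp only [Set.mem_ofPred_eq] at ha hb ⊢
    rw [hf.add, hg.add]
    exact ⟨dvd_add ha.1 hb.1, dvd_add ha.2 hb.2⟩
  one_mem' := by simp [hf.one, hg.one]
  inv_mem' := fun {a} ha => by
    simp only [Set.mem_ofPred_eq] at ha ⊢
    rw [hf.inv, hg.inv]
    exact ⟨(dvd_neg).2 ha.1, (dvd_neg).2 ha.2⟩

theorem mem_NN {f g : GQ → ℤ_[ℓ]} {hf : IsChar f} {hg : IsChar g} {n : ℕ} {σ : GQ} :
    σ ∈ NN f g hf hg n ↔ (ℓ : ℤ_[ℓ]) ^ n ∣ f σ ∧ (ℓ : ℤ_[ℓ]) ^ n ∣ g σ := Iff.rfl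

theorem not_dvd_iff_isUnit (x : ℤ_[ℓ]) : ¬ (ℓ : ℤ_[ℓ]) ∣ x ↔ IsUnit x := by
  rw [PadicInt.isUnit_iff, ← PadicInt.norm_lt_one_iff_dvd, not_lt]
  exact ⟨fun h => le_antisymm x.norm_le_one h, fun h => h.ge⟩

theorem dvd_of_unit {u : ℤ_[ℓ]} (hu : IsUnit u) {n k : ℕ} (h : (ℓ : ℤ_[ℓ]) ^ n ∣ k * u) :
    ℓ ^ n ∣ k := by
  have h1 : (ℓ : ℤ_[ℓ]) ^ n ∣ (k : ℤ) := by
    have := (hu.dvd_mul_right).1 h
    simpa using this
  have h2 := (PadicInt.pow_p_dvd_int_iff n (k : ℤ)).1 h1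
  exact_mod_cast h2

theorem tower_NN {f g : GQ → ℤ_[ℓ]} (hf : IsChar f) (hg : IsChar g) :
    Tower ℓ (NN f g hf hg) where
  isOpen n := ((isOpen_dvd n).preimage hf.cont).inter ((isOpen_dvd n).preimage hg.cont)
  normal n := ⟨fun a ha b => by
    rw [mem_NN] at ha ⊢
    rw [hf.add, hf.add, hg.add, hg.add, hf.inv, hg.inv]
    simpa using ha⟩
  le n := fun σ hσ => by
    rw [mem_NN] at hσ ⊢
    have h1 : (ℓ : ℤ_[ℓ]) ^ 1 ∣ (ℓ : ℤ_[ℓ]) ^ (n+1) := pow_dvd_pow _ (by omega)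
    exact ⟨h1.trans hσ.1, h1.trans hσ.2⟩
  comm n σ τ := by
    rw [mem_NN]
    have h1 : f (σ * τ * σ⁻¹ * τ⁻¹) = 0 := by
      rw [hf.add, hf.add, hf.add, hf.inv, hf.inv]; ring
    have h2 : g (σ * τ * σ⁻¹ * τ⁻¹) = 0 := by
      rw [hg.add, hg.add, hg.add, hg.inv, hg.inv]; ring
    rw [h1, h2]
    exact ⟨dvd_zero _, dvd_zero _⟩
  pow n σ := by
    rw [mem_NN, hf.pow, hg.pow]
    push_cast
    exact ⟨dvd_mul_right _ _, dvd_mul_right _ _⟩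
  tor n σ k h1 h2 := by
    rw [mem_NN] at h1 h2
    rw [hf.pow, hg.pow] at h2
    rw [pow_one, not_and_or, not_dvd_iff_isUnit, not_dvd_iff_isUnit] at h1
    rcases h1 with h1 | h1
    · exact dvd_of_unit h1 h2.1
    · exact dvd_of_unit h1 h2.2

/-- There are no two characters independent modulo `ℓ`, for `ℓ` odd. -/
theorem no_pair (hℓ2 : ℓ ≠ 2) {f g : GQ → ℤ_[ℓ]} (hf : IsChar f) (hg : IsChar g) {σ₀ σ₁ : GQ}
    (h0 : f σ₀ = 0) (hg0 : IsUnit (g σ₀)) (hf1 : IsUnit (f σ₁)) : False := by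
  apply (tower_NN hf hg).index_ne hℓ2
  -- the reduction
  let Φ : GQ →* Multiplicative (ZMod ℓ × ZMod ℓ) :=
    { toFun := fun σ => Multiplicative.ofAdd (PadicInt.toZMod (f σ), PadicInt.toZMod (g σ))
      map_one' := by simp [hf.one, hg.one]
      map_mul' := fun σ τ => by
        rw [hf.add, hg.add, map_add, map_add, ← ofAdd_add, Prod.mk_add_mk] }
  have hdvd : ∀ x : ℤ_[ℓ], PadicInt.toZMod x = 0 ↔ (ℓ : ℤ_[ℓ]) ∣ x := by
    intro x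
    rw [← RingHom.mem_ker, PadicInt.ker_toZMod, PadicInt.maximalIdeal_eq_span_p,
      Ideal.mem_span_singleton]
  have hker : Φ.ker = NN f g hf hg 1 := by
    ext σ
    rw [MonoidHom.mem_ker, mem_NN, pow_one, ← hdvd, ← hdvd]
    change Multiplicative.ofAdd (PadicInt.toZMod (f σ), PadicInt.toZMod (g σ)) = 1 ↔ _
    rw [ofAdd_eq_one, Prod.mk_eq_zero]
  have hsurj : Function.Surjective Φ := by
    intro y
    obtain ⟨⟨a, b⟩, rfl⟩ := Multiplicative.ofAdd.surjective y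
    have u0 : IsUnit (PadicInt.toZMod (g σ₀)) := hg0.map _
    have u1 : IsUnit (PadicInt.toZMod (f σ₁)) := hf1.map _
    obtain ⟨v0, hv0⟩ := u0.exists_left_inv
    obtain ⟨v1, hv1⟩ := u1.exists_left_inv
    set i := (a * v1).val
    set j := ((b - a * v1 * PadicInt.toZMod (g σ₁)) * v0).val
    refine ⟨σ₁ ^ i * σ₀ ^ j, ?_⟩
    change Multiplicative.ofAdd (PadicInt.toZMod (f _), PadicInt.toZMod (g _)) = _
    rw [hf.add, hg.add, hf.pow, hf.pow, hg.pow, hg.pow, h0]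
    have hi : ((i : ℕ) : ZMod ℓ) = a * v1 := ZMod.natCast_zmod_val _
    have hj : ((j : ℕ) : ZMod ℓ) = (b - a * v1 * PadicInt.toZMod (g σ₁)) * v0 :=
      ZMod.natCast_zmod_val _
    simp only [map_add, map_mul, map_natCast, hi, hj, mul_zero, map_zero, add_zero]
    congr 1
    refine Prod.ext ?_ ?_
    · change a * v1 * PadicInt.toZMod (f σ₁) = a
      rw [mul_assoc, hv1, mul_one]
    · change a * v1 * PadicInt.toZMod (g σ₁) + (b - a * v1 * PadicInt.toZMod (g σ₁)) * v0 *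
        PadicInt.toZMod (g σ₀) = b
      rw [mul_assoc (b - _), hv0]; ring
  rw [← hker, Subgroup.index_ker, MonoidHom.range_eq_top.2 hsurj,
    Nat.card_congr (Subgroup.topEquiv (G := Multiplicative (ZMod ℓ × ZMod ℓ))).toEquiv]
  rw [Nat.card_congr Multiplicative.toAdd, Nat.card_prod, Nat.card_zmod, sq]

/-- Division of a character by the largest possible power of `ℓ`. -/
theorem exists_primitive {f : GQ → ℤ_[ℓ]} (hf : IsChar f) {τ : GQ} (hτ : f τ ≠ 0) :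
    ∃ (k : ℕ) (g : GQ → ℤ_[ℓ]), IsChar g ∧ (∀ σ, f σ = (ℓ : ℤ_[ℓ]) ^ k * g σ) ∧
      ∃ σ, IsUnit (g σ) := by
  classical
  have hℓ0 : (ℓ : ℤ_[ℓ]) ≠ 0 := by exact_mod_cast hℓ.out.ne_zero
  have hex : ∃ k : ℕ, ∃ σ, f σ ≠ 0 ∧ (f σ).valuation = k := ⟨_, τ, hτ, rfl⟩
  set k := Nat.find hex with hk
  obtain ⟨σ₁, hσ₁, hv⟩ := Nat.find_spec hex
  have hmin : ∀ σ, (ℓ : ℤ_[ℓ]) ^ k ∣ f σ := by
    intro σ
    by_cases h0 : f σ = 0
    · rw [h0]; exact dvd_zero _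
    · have h1 : k ≤ (f σ).valuation := Nat.find_min' hex ⟨σ, h0, rfl⟩
      rw [← Ideal.mem_span_singleton, PadicInt.mem_span_pow_iff_le_valuation _ h0]
      exact h1
  choose g hg using hmin
  have hpk : (ℓ : ℤ_[ℓ]) ^ k ≠ 0 := pow_ne_zero _ hℓ0
  refine ⟨k, g, ⟨?_, ?_⟩, hg, σ₁, ?_⟩
  · -- continuity
    have h1 : ∀ σ, ((g σ : ℤ_[ℓ]) : ℚ_[ℓ]) = ((f σ : ℤ_[ℓ]) : ℚ_[ℓ]) / (ℓ : ℚ_[ℓ]) ^ k := by
      intro σ
      have hq : (ℓ : ℚ_[ℓ]) ^ k ≠ 0 := pow_ne_zero _ (by exact_mod_cast hℓ.out.ne_zero)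
      rw [hg σ, eq_div_iff hq]
      push_cast
      ring
    have h2 : Continuous (fun σ => ((g σ : ℤ_[ℓ]) : ℚ_[ℓ])) := by
      simp only [h1]
      exact (continuous_subtype_val.comp hf.cont).div_const _
    exact continuous_induced_rng.2 h2
  · intro σ τ
    apply mul_left_cancel₀ hpk
    rw [← hg, hf.add, mul_add, ← hg, ← hg]
  · rw [← not_dvd_iff_isUnit]
    intro hdvd
    have h1 : (ℓ : ℤ_[ℓ]) ^ (k+1) ∣ f σ₁ := by
      rw [hg σ₁, pow_succ]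
      exact mul_dvd_mul_left _ hdvd
    rw [← Ideal.mem_span_singleton, PadicInt.mem_span_pow_iff_le_valuation _ hσ₁, hv] at h1
    omega

/-- **Rank one.** Every continuous additive character is a multiple of one with a unit value. -/
theorem rank_one_odd (hℓ2 : ℓ ≠ 2) {g : GQ → ℤ_[ℓ]} (hg : IsChar g) {σ₀ : GQ}
    (hg0 : IsUnit (g σ₀)) {f : GQ → ℤ_[ℓ]} (hf : IsChar f) : ∃ a : ℤ_[ℓ], ∀ σ, f σ = a * g σ := by
  obtain ⟨v, hv⟩ := hg0.exists_left_inv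
  refine ⟨f σ₀ * v, fun σ => ?_⟩
  by_contra hne
  set f' : GQ → ℤ_[ℓ] := fun σ => f σ - (f σ₀ * v) * g σ with hf'
  have hf'c : IsChar f' := hf.sub_smul hg _
  have h0 : f' σ₀ = 0 := by
    simp only [hf']
    rw [mul_assoc, hv, mul_one, sub_self]
  have h1 : f' σ ≠ 0 := sub_ne_zero.2 hne
  obtain ⟨k, h, hh, hfh, σ₁, hσ₁⟩ := exists_primitive hf'c h1
  have hℓ0 : (ℓ : ℤ_[ℓ]) ≠ 0 := by exact_mod_cast hℓ.out.ne_zero
  have h2 : h σ₀ = 0 := by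
    have := hfh σ₀
    rw [h0] at this
    exact (mul_eq_zero.1 this.symm).resolve_left (pow_ne_zero _ hℓ0)
  exact no_pair hℓ2 hh hg h2 hg0 hσ₁

end Pool.Agent.H71.KW
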