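import Pool.Agent.H71.KW.Two

/-!
# Rank one, for all primes
-/

set_option autoImplicit false

namespace Pool.Agent.H71.KW

open NumberField Pool.Agent.H68.FA

/-- For `ℓ = 2`, a character with a unit value defines the field `ℚ(√2)` modulo `2`. -/
theorem exists_sqrt_two {f : GQ → ℤ_[2]} (hf : IsChar f) {σ₁ : GQ} (h1 : IsUnit (f σ₁)) :
    ∃ s : AlgebraicClosure ℚ, s ^ 2 = 2 ∧ ∀ σ : GQ, σ s = s ↔ (2 : ℤ_[2]) ∣ f σ := by
  have hT := tower_NN hf hf
  have hn1 := hT.normal 1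
  have hop := hT.isOpen 1
  have hmem : ∀ σ, σ ∈ NN f f hf hf 1 ↔ (2 : ℤ_[2]) ∣ f σ := by
    intro σ
    rw [mem_NN, pow_one, and_self]
    norm_num
  have e1 := numberField_FF (NN f f hf hf 1) hop
  have e2 := isGalois_FF (NN f f hf hf 1) hop
  have hindex : (NN f f hf hf 1).index = 2 := by
    let Φ : GQ →* Multiplicative (ZMod 2) :=
      { toFun := fun σ => Multiplicative.ofAdd (PadicInt.toZMod (f σ))
        map_one' := by simp [hf.one]
        map_mul' := fun σ τ => by rw [hf.add, map_add, ← ofAdd_add] }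
    have hdvd : ∀ x : ℤ_[2], PadicInt.toZMod x = 0 ↔ (2 : ℤ_[2]) ∣ x := by
      intro x
      rw [← RingHom.mem_ker, PadicInt.ker_toZMod, PadicInt.maximalIdeal_eq_span_p,
        Ideal.mem_span_singleton]
      norm_num
    have hker : Φ.ker = NN f f hf hf 1 := by
      ext σ
      rw [MonoidHom.mem_ker, hmem, ← hdvd]
      change Multiplicative.ofAdd (PadicInt.toZMod (f σ)) = 1 ↔ _
      rw [ofAdd_eq_one]
    have hsurj : Function.Surjective Φ := by
      intro y
      obtain ⟨a, rfl⟩ := Multiplicative.ofAdd.surjective y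
      have u1 : IsUnit (PadicInt.toZMod (f σ₁)) := h1.map _
      have h2 : PadicInt.toZMod (f σ₁) = 1 := by
        have : PadicInt.toZMod (f σ₁) ≠ 0 := u1.ne_zero
        revert this
        generalize PadicInt.toZMod (f σ₁) = z
        revert z
        decide
      have ha : a = 0 ∨ a = 1 := by
        revert a
        decide
      rcases ha with h | h
      · exact ⟨1, by rw [map_one, h, ofAdd_zero]⟩
      · refine ⟨σ₁, ?_⟩
        change Multiplicative.ofAdd (PadicInt.toZMod (f σ₁)) = _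
        rw [h2, h]
    rw [← hker, Subgroup.index_ker, MonoidHom.range_eq_top.2 hsurj,
      Nat.card_congr (Subgroup.topEquiv (G := Multiplicative (ZMod 2))).toEquiv,
      Nat.card_congr Multiplicative.toAdd, Nat.card_zmod]
  obtain ⟨c, hcc, hc⟩ := exists_conj
  have hfc : f c = 0 := by
    have h2 : (2 : ℤ_[2]) * f c = 0 := by
      rw [two_mul, ← hf.add, hcc, hf.one]
    exact (mul_eq_zero.1 h2).resolve_left (by norm_num)
  have hcN : c ∈ NN f f hf hf 1 := by rw [hmem, hfc]; exact dvd_zero _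
  obtain ⟨s, hs2, hs⟩ := quadratic (K := FF (NN f f hf hf 1))
    (by rw [card_gal hop, hindex])
    (fun q hq hq2 P hP hqP => hT.unramified hq hq2 P hqP)
    (fun x d hx => hc (x : AlgebraicClosure ℚ) d
      ((mem_iff_fix _ hop c).1 hcN x) (by
        have := congrArg (fun z : FF (NN f f hf hf 1) => (z : AlgebraicClosure ℚ)) hx
        simpa using this))
  refine ⟨s, ?_, fun σ => ?_⟩
  · have := congrArg (fun z : FF (NN f f hf hf 1) => (z : AlgebraicClosure ℚ)) hs2
    simp only [IntermediateField.coe_pow] at this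
    rw [this]
    rfl
  · rw [← hmem]
    constructor
    · intro h
      rw [← res_eq_one_iff _ hop]
      apply hs
      apply Subtype.ext
      rw [res_apply]
      exact h
    · intro h
      exact (mem_iff_fix _ hop σ).1 h s

theorem no_pair_two {f g : GQ → ℤ_[2]} (hf : IsChar f) (hg : IsChar g) {σ₀ σ₁ : GQ}
    (h0 : f σ₀ = 0) (hg0 : IsUnit (g σ₀)) (hf1 : IsUnit (f σ₁)) : False := by
  obtain ⟨s, hs2, hs⟩ := exists_sqrt_two hf hf1
  obtain ⟨t, ht2, ht⟩ := exists_sqrt_two hg hg0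
  have h1 : σ₀ s = s := (hs σ₀).2 (by rw [h0]; exact dvd_zero _)
  have h2 : σ₀ t = t := by
    have h3 : (t - s) * (t + s) = 0 := by linear_combination ht2 - hs2
    rcases mul_eq_zero.1 h3 with h3 | h3
    · rw [sub_eq_zero.1 h3, h1]
    · rw [eq_neg_of_add_eq_zero_left h3, map_neg, h1]
  have h3 := (ht σ₀).1 h2
  have h4 : ¬ ((2 : ℕ) : ℤ_[2]) ∣ g σ₀ := (not_dvd_iff_isUnit _).2 hg0
  exact h4 (by exact_mod_cast h3)

variable {ℓ : ℕ} [hℓ : Fact ℓ.Prime]

/-- There are no two characters independent modulo `ℓ`. -/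
theorem no_pair' {f g : GQ → ℤ_[ℓ]} (hf : IsChar f) (hg : IsChar g) {σ₀ σ₁ : GQ}
    (h0 : f σ₀ = 0) (hg0 : IsUnit (g σ₀)) (hf1 : IsUnit (f σ₁)) : False := by
  by_cases hℓ2 : ℓ = 2
  · subst hℓ2
    have hp : hℓ = ⟨Nat.prime_two⟩ := Subsingleton.elim _ _
    exact no_pair_two hf hg h0 hg0 hf1
  · exact no_pair hℓ2 hf hg h0 hg0 hf1

/-- **Rank one.** Every continuous additive character of the absolute Galois group of `ℚ` with
values in `ℤ_ℓ` is a multiple of one with a unit value. -/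
theorem rank_one {g : GQ → ℤ_[ℓ]} (hg : IsChar g) {σ₀ : GQ}
    (hg0 : IsUnit (g σ₀)) {f : GQ → ℤ_[ℓ]} (hf : IsChar f) : ∃ a : ℤ_[ℓ], ∀ σ, f σ = a * g σ := by
  obtain ⟨v, hv⟩ := hg0.exists_left_inv
  refine ⟨f σ₀ * v, fun σ => ?_⟩
  by_contra hne
  set f' : GQ → ℤ_[ℓ] := fun σ => f σ - (f σ₀ * v) * g σ with hf'
  have hf'c : IsChar f' := hf.sub_smul hg _
  have h0 : f' σ₀ = 0 := by
    simp only [hf']
    rw [mul_assoc, hv, mul_one, sub_self]
  have h1 : f' σ ≠ 0 := sub_ne_zero.2 hne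
  obtain ⟨k, h, hh, hfh, σ₁, hσ₁⟩ := exists_primitive hf'c h1
  have hℓ0 : (ℓ : ℤ_[ℓ]) ≠ 0 := by exact_mod_cast hℓ.out.ne_zero
  have h2 : h σ₀ = 0 := by
    have := hfh σ₀
    rw [h0] at this
    exact (mul_eq_zero.1 this.symm).resolve_left (pow_ne_zero _ hℓ0)
  exact no_pair' hh hg h2 hg0 hσ₁

/-- **Rank one**, second form: of two characters, the nonzero one divides the other up to a
scalar. -/
theorem rank_one' {g : GQ → ℤ_[ℓ]} (hg : IsChar g) {σ₀ : GQ} (hg0 : g σ₀ ≠ 0)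
    {f : GQ → ℤ_[ℓ]} (hf : IsChar f) (σ : GQ) : g σ₀ * f σ = f σ₀ * g σ := by
  obtain ⟨k, g', hg', hgg', σ₁, hσ₁⟩ := exists_primitive hg hg0
  obtain ⟨a, ha⟩ := rank_one hg' hσ₁ hf
  rw [ha, ha σ₀, hgg', hgg']
  ring

end Pool.Agent.H71.KW
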