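import Pool.Agent.H71.KW.Inertia

/-!
# Tame inertia in an abelian extension of `ℚ`
-/

set_option autoImplicit false

namespace Pool.Agent.H71.KW

open NumberField

open scoped Pointwise

section

variable {A G : Type*} [CommRing A] [Group G] [MulSemiringAction G A]
  {Q : Ideal A} [hQ : Q.IsMaximal]

omit hQ in
theorem smul_mem_pow {τ : G} (hτ : ∀ x, x ∈ Q → τ • x ∈ Q) (n : ℕ) {x : A} (hx : x ∈ Q ^ n) :
    τ • x ∈ Q ^ n := by
  have h1 : (Q ^ n).map (MulSemiringAction.toRingHom G A τ) ≤ Q ^ n := by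
    rw [Ideal.map_pow]
    refine Ideal.pow_right_mono ?_ n
    rw [Ideal.map_le_iff_le_comap]
    exact fun y hy => hτ y hy
  exact h1 (Ideal.mem_map_of_mem _ hx)

omit hQ in
theorem inertia_smul_mem {σ : G} (hσ : σ ∈ Q.inertia G) (x : A) (hx : x ∈ Q) : σ • x ∈ Q := by
  have h1 : σ • x - x ∈ Q := hσ x
  have := Q.add_mem h1 hx
  simpa using this

variable [IsDedekindDomain A]

theorem pow_notMem (hQ0 : Q ≠ ⊥) {π : A} (hπ2 : π ∉ Q ^ 2) (n : ℕ) : π ^ n ∉ Q ^ (n+1) := by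
  have hp : Prime Q := Ideal.prime_of_isPrime hQ0 inferInstance
  intro h
  have h1 : Q ^ (n+1) ∣ Ideal.span {π} ^ n := by
    rw [Ideal.span_singleton_pow, Ideal.dvd_span_singleton]
    exact h
  have h2 : ¬ Q ^ 2 ∣ Ideal.span {π} := by
    rw [Ideal.dvd_span_singleton]; exact hπ2
  rw [pow_dvd_iff_le_emultiplicity, emultiplicity_pow hp] at h1
  rw [pow_dvd_iff_le_emultiplicity, not_le] at h2
  have h3 : emultiplicity Q (Ideal.span {π}) ≤ 1 := by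
    cases hk : emultiplicity Q (Ideal.span {π}) with
    | top => rw [hk] at h2; simp at h2
    | coe k =>
      rw [hk] at h2
      have h4 : k < 2 := by exact_mod_cast h2
      have h5 : k ≤ 1 := by omega
      exact_mod_cast h5
  have h4 : (n : ℕ∞) * emultiplicity Q (Ideal.span {π}) ≤ n := by
    calc (n : ℕ∞) * emultiplicity Q (Ideal.span {π}) ≤ n * 1 := by gcongr
      _ = n := mul_one _
  have h5 : ((n + 1 : ℕ) : ℕ∞) ≤ n := le_trans h1 h4
  have h6 : n + 1 ≤ n := by exact_mod_cast h5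
  omega

/-- `σ` in the inertia group which fixes a uniformiser modulo `Q²` acts trivially on the graded
ring. -/
theorem inertia_raise (hQ0 : Q ≠ ⊥) {π : A} (hπ : π ∈ Q) (hπ2 : π ∉ Q ^ 2) {σ : G}
    (hσ : σ ∈ Q.inertia G) (hσπ : σ • π - π ∈ Q ^ 2) (n : ℕ) {z : A} (hz : z ∈ Q ^ n) :
    σ • z - z ∈ Q ^ (n+1) := by
  have hπn : ∀ n : ℕ, π ^ n ∈ Q ^ n := fun n => Ideal.pow_mem_pow hπ n
  have hπn' : ∀ n : ℕ, π ^ n ∉ Q ^ (n+1) := pow_notMem hQ0 hπ2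
  have hdiff : ∀ n : ℕ, (σ • π) ^ n - π ^ n ∈ Q ^ (n+1) := by
    intro n
    induction n with
    | zero => simp
    | succ n ih =>
      have h1 : (σ • π) ^ (n+1) - π ^ (n+1) = (σ • π) ^ n * (σ • π - π) +
          ((σ • π) ^ n - π ^ n) * π := by ring
      rw [h1]
      refine Ideal.add_mem _ ?_ ?_
      · rw [show n + 1 + 1 = n + 2 by ring, pow_add]
        exact Ideal.mul_mem_mul (Ideal.pow_mem_pow (inertia_smul_mem hσ π hπ) n) hσπ
      · rw [pow_succ]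
        exact Ideal.mul_mem_mul ih hπ
  obtain ⟨d, e, he, hde⟩ := Ideal.exists_mul_add_mem_pow_succ hQ0 (π ^ n) z (hπn n) (hπn' n) hz
  have h1 : σ • z - z = (σ • π) ^ n * (σ • d - d) + ((σ • π) ^ n - π ^ n) * d + (σ • e - e) := by
    rw [← hde, smul_add, smul_mul', smul_pow']
    ring
  rw [h1]
  refine Ideal.add_mem _ (Ideal.add_mem _ ?_ (Ideal.mul_mem_right _ _ (hdiff n)))
    (Ideal.sub_mem _ (smul_mem_pow (inertia_smul_mem hσ) _ he) he)
  rw [pow_succ]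
  exact Ideal.mul_mem_mul (Ideal.pow_mem_pow (inertia_smul_mem hσ π hπ) n) (hσ d)

/-- `σ` in the inertia group which fixes a uniformiser modulo `Q²` and has order prime to `Q`
acts trivially. -/
theorem inertia_eq_of_fix (hQ0 : Q ≠ ⊥) {π : A} (hπ : π ∈ Q) (hπ2 : π ∉ Q ^ 2) {σ : G}
    (hσ : σ ∈ Q.inertia G) (hσπ : σ • π - π ∈ Q ^ 2) {m : ℕ} (hm : σ ^ m = 1)
    (hmQ : (m : A) ∉ Q) (x : A) : σ • x = x := by
  by_contra hx
  obtain ⟨y, hy⟩ : ∃ y, y = σ • x - x := ⟨_, rfl⟩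
  have hy0 : y ≠ 0 := fun h => hx (sub_eq_zero.1 (hy.symm.trans h))
  -- `y` has an exact order
  obtain ⟨n, hn, hn'⟩ : ∃ n, y ∈ Q ^ n ∧ y ∉ Q ^ (n+1) := by
    have h1 : ∃ n, y ∉ Q ^ n := by
      by_contra hcon
      push Not at hcon
      have h2 : y ∈ (⨅ n : ℕ, Q ^ n) := by
        rw [Ideal.mem_iInf]; exact hcon
      rw [Ideal.iInf_pow_eq_bot_of_isDomain Q (Ideal.IsPrime.ne_top inferInstance)] at h2
      exact hy0 h2
    classical
    have h3 := Nat.find_spec h1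
    have h4 : Nat.find h1 ≠ 0 := by
      intro h0
      rw [h0] at h3
      simp at h3
    refine ⟨Nat.find h1 - 1, ?_, ?_⟩
    · have := Nat.find_min h1 (m := Nat.find h1 - 1) (by omega)
      exact not_not.1 this
    · rwa [Nat.sub_add_cancel (Nat.one_le_iff_ne_zero.2 h4)]
  have h1 : ∀ j : ℕ, (σ ^ j) • y - y ∈ Q ^ (n+1) := by
    intro j
    induction j with
    | zero => simp
    | succ j ih =>
      have h2 : (σ ^ (j+1)) • y - y = σ • ((σ ^ j) • y - y) + (σ • y - y) := by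
        rw [smul_sub, smul_smul, ← pow_succ']; ring
      rw [h2]
      exact Ideal.add_mem _ (smul_mem_pow (inertia_smul_mem hσ) _ ih)
        (inertia_raise hQ0 hπ hπ2 hσ hσπ n hn)
  have h2 : ∑ j ∈ Finset.range m, (σ ^ j) • y = 0 := by
    have h3 : ∀ j, (σ ^ j) • y = (σ ^ (j+1)) • x - (σ ^ j) • x := by
      intro j
      rw [hy, smul_sub, smul_smul, ← pow_succ]
    simp only [h3]
    rw [Finset.sum_range_sub (fun j => (σ ^ j) • x), hm]
    simp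
  have h3 : (m : A) * y ∈ Q ^ (n+1) := by
    have h4 : (m : A) * y = -(∑ j ∈ Finset.range m, ((σ ^ j) • y - y)) := by
      rw [Finset.sum_sub_distrib, h2]
      simp
    rw [h4]
    exact neg_mem (Ideal.sum_mem _ fun j _ => h1 j)
  rcases Ideal.IsMaximal.mul_mem_pow Q h3 with h | h
  · exact hmQ h
  · exact hn' h

/-- The action of inertia on a uniformiser commutes with Frobenius: `σ^(q-1)` fixes a uniformiser
modulo `Q²`. -/
theorem inertia_pow_fix {π : A} (hQ0 : Q ≠ ⊥) (hπ : π ∈ Q) (hπ2 : π ∉ Q ^ 2) {σ φ : G}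
    (hσ : σ ∈ Q.inertia G) (hcomm : φ * σ = σ * φ) {q : ℕ} (hq : 0 < q)
    (hφ : ∀ x : A, φ • x - x ^ q ∈ Q) (hφQ : ∀ x, x ∈ Q → φ • x ∈ Q)
    (hφQ' : ∀ x, x ∈ Q → φ⁻¹ • x ∈ Q) :
    (σ ^ (q - 1)) • π - π ∈ Q ^ 2 := by
  have hπ1 : π ∈ Q ^ 1 := by rwa [pow_one]
  have exp : ∀ c : A, c ∈ Q → ∃ d : A, ∃ e ∈ Q ^ 2, π * d + e = c := by
    intro c hc
    exact Ideal.exists_mul_add_mem_pow_succ hQ0 (i := 1) π c hπ1 hπ2 (by rwa [pow_one])
  obtain ⟨u, e, he, hu⟩ := exp (σ • π) (inertia_smul_mem hσ π hπ)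
  obtain ⟨w, e', he', hw⟩ := exp (φ • π) (hφQ π hπ)
  have hcancel : ∀ y : A, π * y ∈ Q ^ 2 → y ∈ Q := fun y hy =>
    Ideal.mem_prime_of_mul_mem_pow hQ0 (i := 1) hπ2 hy
  have hσQ2 : ∀ x, x ∈ Q ^ 2 → σ • x ∈ Q ^ 2 := fun x hx =>
    smul_mem_pow (inertia_smul_mem hσ) 2 hx
  have hφQ2 : ∀ x, x ∈ Q ^ 2 → φ • x ∈ Q ^ 2 := fun x hx => smul_mem_pow hφQ 2 hx
  have hmulmem : ∀ a b : A, a ∈ Q → b ∈ Q → a * b ∈ Q ^ 2 := fun a b ha hb => by
    rw [sq]; exact Ideal.mul_mem_mul ha hb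
  -- `w ∉ Q`
  have hwQ : w ∉ Q := by
    intro h
    have h1 : φ • π ∈ Q ^ 2 := by
      rw [← hw]; exact Ideal.add_mem _ (hmulmem _ _ hπ h) he'
    have h2 := smul_mem_pow hφQ' 2 h1
    rw [inv_smul_smul] at h2
    exact hπ2 h2
  have huQ : u ∉ Q := by
    intro h
    have h1 : σ • π ∈ Q ^ 2 := by
      rw [← hu]; exact Ideal.add_mem _ (hmulmem _ _ hπ h) he
    have hσ' : σ⁻¹ ∈ Q.inertia G := inv_mem hσ
    have h2 := smul_mem_pow (inertia_smul_mem hσ') 2 h1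
    rw [inv_smul_smul] at h2
    exact hπ2 h2
  -- the two ways of computing
  have hA : φ • (σ • π) - π * (w * u ^ q) ∈ Q ^ 2 := by
    have h1 : φ • (σ • π) - π * (w * u ^ q) =
        (π * w) * (φ • u - u ^ q) + e' * φ • u + φ • e := by
      rw [← hu, smul_add, smul_mul', ← hw]; ring
    rw [h1]
    refine Ideal.add_mem _ (Ideal.add_mem _ ?_ (Ideal.mul_mem_right _ _ he')) (hφQ2 _ he)
    exact hmulmem _ _ (Ideal.mul_mem_right _ _ hπ) (hφ u)
  have hB : σ • (φ • π) - π * (w * u) ∈ Q ^ 2 := by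
    have h1 : σ • (φ • π) - π * (w * u) =
        (σ • π) * (σ • w - w) + e * w + σ • e' := by
      rw [← hw, smul_add, smul_mul', ← hu]; ring
    rw [h1]
    refine Ideal.add_mem _ (Ideal.add_mem _ ?_ (Ideal.mul_mem_right _ _ he)) (hσQ2 _ he')
    exact hmulmem _ _ (inertia_smul_mem hσ π hπ) (hσ w)
  have hAB : φ • (σ • π) = σ • (φ • π) := by rw [smul_smul, smul_smul, hcomm]
  have hC : π * (w * (u ^ q - u)) ∈ Q ^ 2 := by
    have h1 : π * (w * (u ^ q - u)) = (σ • (φ • π) - π * (w * u)) -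
        (φ • (σ • π) - π * (w * u ^ q)) := by rw [hAB]; ring
    rw [h1]
    exact Ideal.sub_mem _ hB hA
  have hD : u ^ (q-1) - 1 ∈ Q := by
    have h1 := hcancel _ hC
    have hQp : Q.IsPrime := inferInstance
    have h2 : u ^ q - u = u * (u ^ (q-1) - 1) := by
      obtain ⟨k, rfl⟩ : ∃ k, q = k + 1 := ⟨q - 1, by omega⟩
      rw [Nat.add_sub_cancel, pow_succ]; ring
    rw [h2] at h1
    exact (hQp.mem_or_mem ((hQp.mem_or_mem h1).resolve_left hwQ)).resolve_left huQ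
  -- powers
  have hpow : ∀ j : ℕ, (σ ^ j) • π - u ^ j * π ∈ Q ^ 2 := by
    intro j
    induction j with
    | zero => simp
    | succ j ih =>
      have h1 : (σ ^ (j+1)) • π - u ^ (j+1) * π = σ • ((σ ^ j) • π - u ^ j * π) +
          ((σ • u) ^ j - u ^ j) * σ • π + u ^ j * e := by
        rw [smul_sub, smul_smul, ← pow_succ', smul_mul', smul_pow', ← hu]; ring
      rw [h1]
      refine Ideal.add_mem _ (Ideal.add_mem _ (hσQ2 _ ih) ?_) (Ideal.mul_mem_left _ _ he)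
      refine hmulmem _ _ ?_ (inertia_smul_mem hσ π hπ)
      exact Ideal.mem_of_dvd _ (sub_dvd_pow_sub_pow _ _ j) (hσ u)
  have h1 : (σ ^ (q-1)) • π - π = ((σ ^ (q-1)) • π - u ^ (q-1) * π) + (u ^ (q-1) - 1) * π := by
    ring
  rw [h1]
  exact Ideal.add_mem _ (hpow _) (hmulmem _ _ hD hπ)

end

/-- Tame inertia in an abelian extension of `ℚ` is killed by `q - 1`. -/
theorem tame {L : Type*} [Field L] [NumberField L] [IsGalois ℚ L]
    (hcomm : ∀ a b : Gal(L/ℚ), a * b = b * a) {q : ℕ} (hq : q.Prime)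
    {Q : Ideal (𝓞 L)} [hQ : Q.IsPrime] (hqQ : (q : 𝓞 L) ∈ Q) {σ : Gal(L/ℚ)}
    (hσ : σ ∈ Q.inertia Gal(L/ℚ)) {m : ℕ} (hm : σ ^ m = 1) (hqm : ¬ q ∣ m) : σ ^ (q - 1) = 1 := by
  have hover := liesOver_of_mem hq hqQ
  have hQ0 : Q ≠ ⊥ := by
    intro h
    rw [h, Ideal.mem_bot] at hqQ
    exact hq.ne_zero (by exact_mod_cast hqQ)
  have hQm : Q.IsMaximal := hQ.isMaximal hQ0
  have hfin : Finite (𝓞 L ⧸ Q) := Ring.HasFiniteQuotients.finiteQuotient hQ0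
  obtain ⟨φ, hφ⟩ := IsArithFrobAt.exists_of_isInvariant ℤ Gal(L/ℚ) Q
  have hcardq : Nat.card (ℤ ⧸ Q.under ℤ) = q := by
    rw [← hover.over]
    have : NeZero q := ⟨hq.ne_zero⟩
    rw [Nat.card_congr (Int.quotientSpanNatEquivZMod q).toEquiv, Nat.card_zmod]
  have hφ1 : ∀ x : 𝓞 L, φ • x - x ^ q ∈ Q := by
    intro x
    have := hφ x
    rw [hcardq] at this
    exact this
  have hstab := hφ.mem_stabilizer
  have hφQ : ∀ x, x ∈ Q → φ • x ∈ Q := by
    intro x hx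
    have h1 : φ • x ∈ φ • Q := Ideal.smul_mem_pointwise_smul φ x Q hx
    rwa [MulAction.mem_stabilizer_iff.1 hstab] at h1
  have hφQ' : ∀ x, x ∈ Q → φ⁻¹ • x ∈ Q := by
    intro x hx
    have h1 : φ⁻¹ • x ∈ φ⁻¹ • Q := Ideal.smul_mem_pointwise_smul φ⁻¹ x Q hx
    rwa [MulAction.mem_stabilizer_iff.1 (inv_mem hstab)] at h1
  obtain ⟨π, hπ, hπ2⟩ := Q.exists_mem_pow_notMem_pow_succ hQ0 hQm.ne_top 1
  rw [pow_one] at hπ
  have hfix := inertia_pow_fix hQ0 hπ hπ2 hσ (hcomm φ σ) hq.pos hφ1 hφQ hφQ'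
  have hmQ : (m : 𝓞 L) ∉ Q := by
    intro h
    apply hqm
    have h1 : (m : ℤ) ∈ Q.under ℤ := by
      rw [Ideal.mem_comap]; simpa using h
    rw [← hover.over, Ideal.mem_span_singleton] at h1
    exact_mod_cast h1
  have hτm : (σ ^ (q-1)) ^ m = 1 := by
    rw [← pow_mul, mul_comm, pow_mul, hm, one_pow]
  have hall := inertia_eq_of_fix hQ0 hπ hπ2 (pow_mem hσ (q-1)) hfix hτm hmQ
  have : FaithfulSMul Gal(L/ℚ) (𝓞 L) :=
    (inferInstance : IsGaloisGroup Gal(L/ℚ) ℤ (𝓞 L)).faithful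
  exact FaithfulSMul.eq_of_smul_eq_smul (M := Gal(L/ℚ)) (α := 𝓞 L) (fun x => by
    rw [hall x, one_smul])

end Pool.Agent.H71.KW
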