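import Pool.Agent.H71.KW.Procyclic
import Pool.Agent.H68.FA.Defs

/-!
# Continuous characters with values in an extension of `ℚ_ℓ`
-/

set_option autoImplicit false

namespace Pool.Agent.H71.KW

open NumberField Pool.Agent.H68.FA

section Norm

variable {K : Type*} [NormedField K] [IsUltrametricDist K]

theorem norm_one_of_sub {u : K} (hu : ‖u - 1‖ < 1) : ‖u‖ = 1 := by
  have h1 : ‖(1 : K)‖ = 1 := norm_one
  have h2 := IsUltrametricDist.norm_eq_of_add_norm_lt_max (x := u - 1) (y := (1 : K))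
  have h3 : ‖u - 1‖ ≠ ‖(1 : K)‖ := by rw [h1]; exact hu.ne
  have h4 := IsUltrametricDist.norm_add_eq_max_of_norm_ne_norm h3
  rw [sub_add_cancel, h1, max_eq_right hu.le] at h4
  exact h4

theorem norm_mul_sub_one_le {a b : K} {r : ℝ} (hr : r < 1) (ha : ‖a - 1‖ ≤ r) (hb : ‖b - 1‖ ≤ r) :
    ‖a * b - 1‖ ≤ r := by
  have h1 : a * b - 1 = (a - 1) * b + (b - 1) := by ring
  rw [h1]
  refine (IsUltrametricDist.norm_add_le_max _ _).trans (max_le ?_ hb)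
  rw [norm_mul, norm_one_of_sub (hb.trans_lt hr), mul_one]
  exact ha

theorem norm_inv_sub_one_le {a : K} {r : ℝ} (hr : r < 1) (ha : ‖a - 1‖ ≤ r) : ‖a⁻¹ - 1‖ ≤ r := by
  have h0 : ‖a‖ = 1 := norm_one_of_sub (ha.trans_lt hr)
  have ha0 : a ≠ 0 := by
    intro h
    rw [h, norm_zero] at h0
    exact zero_ne_one h0
  have h1 : a⁻¹ - 1 = -(a - 1) * a⁻¹ := by field_simp; ring
  rw [h1, norm_mul, norm_neg, norm_inv, h0, inv_one, mul_one]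
  exact ha

theorem norm_pow_sub_one_le {a : K} {r : ℝ} (hr0 : 0 ≤ r) (hr : r < 1) (ha : ‖a - 1‖ ≤ r) (i : ℕ) :
    ‖a ^ i - 1‖ ≤ r := by
  induction i with
  | zero => simpa using hr0
  | succ n ih => rw [pow_succ]; exact norm_mul_sub_one_le hr ih ha

theorem norm_natCast_le_one (n : ℕ) : ‖(n : K)‖ ≤ 1 := IsUltrametricDist.norm_natCast_le_one K n

variable {ℓ : ℕ} [hℓ : Fact ℓ.Prime]

theorem norm_prime_eq_one (hK : ‖(ℓ : K)‖ = (ℓ : ℝ)⁻¹) {p : ℕ} (hp : p.Prime) (hpℓ : p ≠ ℓ) :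
    ‖(p : K)‖ = 1 := by
  have hcop : IsCoprime (p : ℤ) (ℓ : ℤ) := by
    rw [Nat.isCoprime_iff_coprime]
    exact (Nat.coprime_primes hp hℓ.out).2 hpℓ
  obtain ⟨a, b, hab⟩ := hcop
  have h1 : (a : K) * p + (b : K) * ℓ = 1 := by exact_mod_cast congrArg (Int.cast : ℤ → K) hab
  by_contra hne
  have hlt : ‖(p : K)‖ < 1 := lt_of_le_of_ne (norm_natCast_le_one p) hne
  have hlt' : ‖(ℓ : K)‖ < 1 := by
    rw [hK]
    exact inv_lt_one_of_one_lt₀ (by exact_mod_cast hℓ.out.one_lt)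
  have h2 : ‖(1 : K)‖ < 1 := by
    rw [← h1]
    refine (IsUltrametricDist.norm_add_le_max _ _).trans_lt (max_lt ?_ ?_)
    · rw [norm_mul]
      calc ‖(a : K)‖ * ‖(p : K)‖ ≤ 1 * ‖(p : K)‖ :=
            mul_le_mul_of_nonneg_right (IsUltrametricDist.norm_intCast_le_one K a) (norm_nonneg _)
        _ < 1 := by rwa [one_mul]
    · rw [norm_mul]
      calc ‖(b : K)‖ * ‖(ℓ : K)‖ ≤ 1 * ‖(ℓ : K)‖ :=
            mul_le_mul_of_nonneg_right (IsUltrametricDist.norm_intCast_le_one K b) (norm_nonneg _)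
        _ < 1 := by rwa [one_mul]
  rw [norm_one] at h2
  exact lt_irrefl _ h2

/-- `‖u^k - 1‖ = ‖k‖ ‖u - 1‖` for `u` close to one. -/
theorem norm_pow_sub_one (hK : ‖(ℓ : K)‖ = (ℓ : ℝ)⁻¹) {r : ℝ} (hr : r < (ℓ : ℝ)⁻¹) {u : K}
    (hu : ‖u - 1‖ ≤ r) (k : ℕ) : ‖u ^ k - 1‖ = ‖(k : K)‖ * ‖u - 1‖ := by
  have hℓ1 : (ℓ : ℝ)⁻¹ < 1 := inv_lt_one_of_one_lt₀ (by exact_mod_cast hℓ.out.one_lt)
  have hr0 : 0 ≤ r := (norm_nonneg _).trans hu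
  induction k using Nat.recOnMul generalizing u with
  | zero => simp
  | one => simp
  | prime p hp =>
    have h1 : u ^ p - 1 = (∑ i ∈ Finset.range p, u ^ i) * (u - 1) := (geom_sum_mul u p).symm
    have h2 : ∑ i ∈ Finset.range p, u ^ i = ∑ i ∈ Finset.range p, (u ^ i - 1) + (p : K) := by
      rw [Finset.sum_sub_distrib]; simp
    have h3 : ‖∑ i ∈ Finset.range p, (u ^ i - 1)‖ ≤ r := by
      apply IsUltrametricDist.norm_sum_le_of_forall_le_of_nonneg hr0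
      intro i _
      exact norm_pow_sub_one_le hr0 (hr.trans hℓ1) hu i
    have h4 : (ℓ : ℝ)⁻¹ ≤ ‖(p : K)‖ := by
      by_cases hpℓ : p = ℓ
      · rw [hpℓ, hK]
      · rw [norm_prime_eq_one hK hp hpℓ]; exact hℓ1.le
    have h5 : ‖∑ i ∈ Finset.range p, (u ^ i - 1)‖ < ‖(p : K)‖ := (h3.trans_lt hr).trans_le h4
    rw [h1, norm_mul, h2, IsUltrametricDist.norm_add_eq_max_of_norm_ne_norm h5.ne,
      max_eq_right h5.le]
  | mul a b ha hb =>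
    have h1 : ‖u ^ a - 1‖ ≤ r := norm_pow_sub_one_le hr0 (hr.trans hℓ1) hu a
    rw [pow_mul, hb h1, ha hu]
    push_cast
    rw [norm_mul]; ring

end Norm

section Chars

variable {K : Type*} [NormedField K] [IsUltrametricDist K]

/-- The elements on which `φ` is close to one. -/
def near (φ : GQ →* K) (r : ℝ) (hr0 : 0 ≤ r) (hr : r < 1) : Subgroup GQ where
  carrier := {σ | ‖φ σ - 1‖ ≤ r}
  mul_mem' := fun {a b} ha hb => by
    simp only [Set.mem_ofPred_eq] at ha hb ⊢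
    rw [map_mul]
    exact norm_mul_sub_one_le hr ha hb
  one_mem' := by simpa using hr0
  inv_mem' := fun {a} ha => by
    simp only [Set.mem_ofPred_eq] at ha ⊢
    have h1 : φ a * φ a⁻¹ = 1 := by rw [← map_mul, mul_inv_cancel, map_one]
    rw [eq_inv_of_mul_eq_one_right h1]
    exact norm_inv_sub_one_le hr ha

theorem mem_near {φ : GQ →* K} {r : ℝ} {hr0 : 0 ≤ r} {hr : r < 1} {σ : GQ} :
    σ ∈ near φ r hr0 hr ↔ ‖φ σ - 1‖ ≤ r := Iff.rfl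

theorem isOpen_near {φ : GQ →* K} (hφ : Continuous φ) {r : ℝ} {hr0 : 0 ≤ r} {hr : r < 1}
    (hr' : 0 < r) : IsOpen (near φ r hr0 hr : Set GQ) := by
  have h1 : (near φ r hr0 hr : Set GQ) = φ ⁻¹' (Metric.closedBall 1 r) := by
    ext σ
    rw [Set.mem_preimage, mem_closedBall_iff_norm]
    rfl
  rw [h1]
  exact (IsUltrametricDist.isOpen_closedBall _ hr'.ne').preimage hφ

omit [IsUltrametricDist K] in
theorem map_conj {φ : GQ →* K} (σ τ : GQ) : φ (σ * τ * σ⁻¹) = φ τ := by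
  have h1 : φ σ * φ σ⁻¹ = 1 := by rw [← map_mul, mul_inv_cancel, map_one]
  rw [map_mul, map_mul, mul_right_comm, h1, one_mul]

omit [IsUltrametricDist K] in
theorem map_comm {φ : GQ →* K} (σ τ : GQ) : φ (σ * τ * σ⁻¹ * τ⁻¹) = 1 := by
  rw [map_mul, map_conj, ← map_mul, mul_inv_cancel, map_one]

instance near_normal (φ : GQ →* K) (r : ℝ) (hr0 : 0 ≤ r) (hr : r < 1) :
    (near φ r hr0 hr).Normal := ⟨fun a ha b => by
  rw [mem_near, map_conj]; exact ha⟩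

variable {ℓ : ℕ} [hℓ : Fact ℓ.Prime] [CharZero K]

/-- **Kronecker-Weber for characters.** After raising to a common power, two continuous
characters of the absolute Galois group of `ℚ` with values in an ultrametric extension of `ℚ_ℓ`
have values close to one, and their joint image is topologically generated by one element. -/
theorem topgen (hK : ‖(ℓ : K)‖ = (ℓ : ℝ)⁻¹) {χ ψ : GQ →* K} (hχ : Continuous χ)
    (hψ : Continuous ψ) {s : ℕ} (hs : 2 ≤ s) :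
    ∃ M : ℕ, 0 < M ∧ (∀ σ, ‖χ σ ^ M - 1‖ ≤ ((ℓ : ℝ) ^ s)⁻¹) ∧
      (∀ σ, ‖ψ σ ^ M - 1‖ ≤ ((ℓ : ℝ) ^ s)⁻¹) ∧
      ∃ σ₀ : GQ, ∀ (n : ℕ) (σ : GQ), ∃ m : ℕ,
        ‖(χ σ₀ ^ M) ^ m - χ σ ^ M‖ ≤ ((ℓ : ℝ) ^ n)⁻¹ ∧
        ‖(ψ σ₀ ^ M) ^ m - ψ σ ^ M‖ ≤ ((ℓ : ℝ) ^ n)⁻¹ := by
  have hℓ1 : (1 : ℝ) < ℓ := by exact_mod_cast hℓ.out.one_lt
  have hℓ0 : (0 : ℝ) < ℓ := by linarith
  have hrad : ∀ n : ℕ, 0 < ((ℓ : ℝ) ^ n)⁻¹ := fun n => by positivity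
  have hrad' : ∀ n : ℕ, 0 < n → ((ℓ : ℝ) ^ n)⁻¹ < 1 := fun n hn =>
    inv_lt_one_of_one_lt₀ (one_lt_pow₀ hℓ1 hn.ne')
  have hanti : ∀ {a b : ℕ}, a ≤ b → ((ℓ : ℝ) ^ b)⁻¹ ≤ ((ℓ : ℝ) ^ a)⁻¹ := fun {a b} hab =>
    inv_anti₀ (by positivity) (pow_le_pow_right₀ hℓ1.le hab)
  have hs1 : ((ℓ : ℝ) ^ s)⁻¹ < (ℓ : ℝ)⁻¹ := by
    rw [inv_lt_inv₀ (by positivity) (by positivity)]
    calc (ℓ : ℝ) = (ℓ : ℝ) ^ 1 := (pow_one _).symm
      _ < (ℓ : ℝ) ^ s := pow_lt_pow_right₀ hℓ1 (by omega)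
  set V : Subgroup GQ := near χ ((ℓ : ℝ) ^ s)⁻¹ (hrad s).le (hrad' s (by omega)) ⊓
    near ψ ((ℓ : ℝ) ^ s)⁻¹ (hrad s).le (hrad' s (by omega)) with hV
  have hVo : IsOpen (V : Set GQ) :=
    (isOpen_near hχ (hrad s)).inter (isOpen_near hψ (hrad s))
  have hfin : Finite (GQ ⧸ V) := Subgroup.quotient_finite_of_isOpen V hVo
  have hVn : V.Normal := inferInstance
  set M := V.index with hM
  have hMpos : 0 < M := by
    rw [hM, Subgroup.index]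
    exact Nat.card_pos
  have hb : ∀ σ, ‖χ σ ^ M - 1‖ ≤ ((ℓ : ℝ) ^ s)⁻¹ ∧ ‖ψ σ ^ M - 1‖ ≤ ((ℓ : ℝ) ^ s)⁻¹ := by
    intro σ
    have h1 := pow_index_mem' V σ
    obtain ⟨h2, h3⟩ := h1
    rw [← map_pow, ← map_pow]
    exact ⟨h2, h3⟩
  -- the powers
  let powM : K →* K := powMonoidHom M
  let χ' : GQ →* K := powM.comp χ
  let ψ' : GQ →* K := powM.comp ψ
  have hχ' : Continuous χ' := (continuous_pow M).comp hχ
  have hψ' : Continuous ψ' := (continuous_pow M).comp hψ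
  have eχ : ∀ σ, χ' σ = χ σ ^ M := fun σ => rfl
  have eψ : ∀ σ, ψ' σ = ψ σ ^ M := fun σ => rfl
  let N : ℕ → Subgroup GQ := fun n =>
    near χ' ((ℓ : ℝ) ^ (s+n))⁻¹ (hrad _).le (hrad' _ (by omega)) ⊓
    near ψ' ((ℓ : ℝ) ^ (s+n))⁻¹ (hrad _).le (hrad' _ (by omega))
  have hmem : ∀ n σ, σ ∈ N n ↔ ‖χ' σ - 1‖ ≤ ((ℓ : ℝ) ^ (s+n))⁻¹ ∧
      ‖ψ' σ - 1‖ ≤ ((ℓ : ℝ) ^ (s+n))⁻¹ := fun n σ => Iff.rfl
  have hpowaux : ∀ (φ : GQ →* K), (∀ σ, ‖φ σ - 1‖ ≤ ((ℓ : ℝ) ^ s)⁻¹) → ∀ n σ,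
      ‖φ (σ ^ (ℓ ^ n)) - 1‖ ≤ ((ℓ : ℝ) ^ (s+n))⁻¹ := by
    intro φ hφ n σ
    rw [map_pow, norm_pow_sub_one hK hs1 (hφ σ)]
    push_cast
    rw [norm_pow, hK, pow_add, mul_inv, mul_comm, inv_pow]
    exact mul_le_mul_of_nonneg_right (hφ σ) (hrad n).le
  have htoraux : ∀ (φ : GQ →* K), (∀ σ, ‖φ σ - 1‖ ≤ ((ℓ : ℝ) ^ s)⁻¹) → ∀ σ (k : ℕ), 0 < k →
      (∀ n, ‖φ (σ ^ k) - 1‖ ≤ ((ℓ : ℝ) ^ (s+n))⁻¹) → φ σ = 1 := by
    intro φ hφ σ k hk hn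
    have h1 : ‖φ (σ ^ k) - 1‖ = 0 := by
      apply le_antisymm _ (norm_nonneg _)
      have h2 : Filter.Tendsto (fun n : ℕ => ((ℓ : ℝ) ^ (s+n))⁻¹) Filter.atTop (nhds 0) := by
        have h3 : Filter.Tendsto (fun n : ℕ => ((ℓ : ℝ)⁻¹) ^ n) Filter.atTop (nhds 0) :=
          tendsto_pow_atTop_nhds_zero_of_lt_one (by positivity)
            (inv_lt_one_of_one_lt₀ hℓ1)
        have h4 := h3.const_mul (((ℓ : ℝ)⁻¹) ^ s)
        rw [mul_zero] at h4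
        refine h4.congr (fun n => ?_)
        rw [← pow_add, inv_pow]
      exact ge_of_tendsto' h2 hn
    rw [map_pow, norm_pow_sub_one hK hs1 (hφ σ)] at h1
    rcases mul_eq_zero.1 h1 with h1 | h1
    · exfalso
      rw [norm_eq_zero] at h1
      exact hk.ne' (by exact_mod_cast h1)
    · rw [norm_eq_zero, sub_eq_zero] at h1
      exact h1
  have hT : Tow ℓ N :=
    { isOpen := fun n => (isOpen_near hχ' (hrad _)).inter (isOpen_near hψ' (hrad _))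
      normal := fun n => inferInstance
      anti := fun a b hab σ hσ => by
        rw [hmem] at hσ ⊢
        exact ⟨hσ.1.trans (hanti (by omega)), hσ.2.trans (hanti (by omega))⟩
      comm := fun n σ τ => by
        rw [hmem, map_comm, map_comm, sub_self, norm_zero]
        exact ⟨(hrad _).le, (hrad _).le⟩
      pow := fun n σ => by
        rw [hmem]
        exact ⟨hpowaux χ' (fun σ => (hb σ).1) n σ, hpowaux ψ' (fun σ => (hb σ).2) n σ⟩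
      tor := fun σ k hk hn n => by
        rw [hmem]
        have h1 := htoraux χ' (fun σ => (hb σ).1) σ k hk (fun n => ((hmem n _).1 (hn n)).1)
        have h2 := htoraux ψ' (fun σ => (hb σ).2) σ k hk (fun n => ((hmem n _).1 (hn n)).2)
        rw [h1, h2, sub_self, norm_zero]
        exact ⟨(hrad _).le, (hrad _).le⟩ }
  refine ⟨M, hMpos, fun σ => (hb σ).1, fun σ => (hb σ).2, ?_⟩
  obtain ⟨σ₀, hσ₀⟩ := hT.procyclic
  refine ⟨σ₀, fun n σ => ?_⟩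
  obtain ⟨m, hm⟩ := hσ₀ n σ
  rw [hmem] at hm
  have haux : ∀ (φ : GQ →* K), ‖φ σ - 1‖ ≤ ((ℓ : ℝ) ^ s)⁻¹ →
      ‖φ (σ₀ ^ m * σ⁻¹) - 1‖ ≤ ((ℓ : ℝ) ^ (s+n))⁻¹ → ‖(φ σ₀) ^ m - φ σ‖ ≤ ((ℓ : ℝ) ^ n)⁻¹ := by
    intro φ h1 h2
    have h3 : ‖φ σ‖ = 1 := norm_one_of_sub (h1.trans_lt (hrad' s (by omega)))
    have h4 : φ σ⁻¹ * φ σ = 1 := by rw [← map_mul, inv_mul_cancel, map_one]
    have h5 : (φ σ₀) ^ m - φ σ = (φ (σ₀ ^ m * σ⁻¹) - 1) * φ σ := by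
      rw [map_mul, map_pow, sub_mul, mul_assoc, h4, mul_one, one_mul]
    rw [h5, norm_mul, h3, mul_one]
    exact h2.trans (hanti (by omega))
  exact ⟨m, haux χ' (hb σ).1 hm.1, haux ψ' (hb σ).2 hm.2⟩

end Chars

section AlgCl

variable {ℓ : ℕ} [hℓ : Fact ℓ.Prime]

/-- The cyclotomic character as a monoid homomorphism. -/
noncomputable def cycloHom (ℓ : ℕ) [Fact ℓ.Prime] : GQ →* PadicAlgCl ℓ where
  toFun := cyclo ℓ
  map_one' := cyclo_one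
  map_mul' := cyclo_mul

theorem cycloHom_apply (σ : GQ) : cycloHom ℓ σ = cyclo ℓ σ := rfl

theorem continuous_cycl : Continuous (cycl ℓ) :=
  cyclotomicCharacter.continuous ℓ ℚ (AlgebraicClosure ℚ)

theorem continuous_cyclo : Continuous (cyclo ℓ) := by
  have h1 : Continuous (algebraMap ℚ_[ℓ] (PadicAlgCl ℓ)) := continuous_algebraMap _ _
  have h2 : Continuous (fun σ : GQ => ((cycl ℓ σ : ℤ_[ℓ]ˣ) : ℤ_[ℓ])) :=
    Units.continuous_val.comp continuous_cycl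
  have h3 : Continuous (fun x : ℤ_[ℓ] => (x : ℚ_[ℓ])) := continuous_subtype_val
  exact h1.comp (h3.comp h2)

theorem norm_ell : ‖(ℓ : PadicAlgCl ℓ)‖ = (ℓ : ℝ)⁻¹ := by
  have h1 : ((ℓ : ℚ_[ℓ]) : PadicAlgCl ℓ) = (ℓ : PadicAlgCl ℓ) := map_natCast _ _
  rw [← h1, PadicAlgCl.norm_extends, Padic.norm_p]

/-- **Kronecker-Weber for characters.** For every continuous character `χ` of the absolute
Galois group of `ℚ` with values in the algebraic closure of `ℚ_ℓ` there are a positive integer `M`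
and `σ₀` such that the values of `χ^M` and of the `M`-th power of the cyclotomic character are
close to one, and the pair of both is topologically generated by its value at `σ₀`. -/
theorem topgen_cyclo {χ : GQ →* PadicAlgCl ℓ} (hχ : Continuous χ) {s : ℕ} (hs : 2 ≤ s) :
    ∃ M : ℕ, 0 < M ∧ (∀ σ, ‖χ σ ^ M - 1‖ ≤ ((ℓ : ℝ) ^ s)⁻¹) ∧
      (∀ σ, ‖cyclo ℓ σ ^ M - 1‖ ≤ ((ℓ : ℝ) ^ s)⁻¹) ∧
      ∃ σ₀ : GQ, ∀ (n : ℕ) (σ : GQ), ∃ m : ℕ,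
        ‖(χ σ₀ ^ M) ^ m - χ σ ^ M‖ ≤ ((ℓ : ℝ) ^ n)⁻¹ ∧
        ‖(cyclo ℓ σ₀ ^ M) ^ m - cyclo ℓ σ ^ M‖ ≤ ((ℓ : ℝ) ^ n)⁻¹ :=
  topgen norm_ell hχ (ψ := cycloHom ℓ) continuous_cyclo hs

end AlgCl

end Pool.Agent.H71.KW
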