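import Pool.Agent.H71.KW.Local
import Pool.Agent.H71.KW.Tame

/-!
# Towers of abelian extensions of `ℚ`
-/

set_option autoImplicit false

namespace Pool.Agent.H71.KW

open NumberField

section Step

variable {E L : Type*} [Field E] [NumberField E] [Field L] [NumberField L] [Algebra E L]
  [IsGalois ℚ E] [IsGalois ℚ L]

/-- Inertia in a quotient comes from inertia. -/
theorem exists_inertia_lift {q : ℕ} (hq : q.Prime) {𝔮 : Ideal (𝓞 E)} [h𝔮 : 𝔮.IsPrime]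
    (hq𝔮 : (q : 𝓞 E) ∈ 𝔮) (hne : 𝔮.inertia Gal(E/ℚ) ≠ ⊥) :
    ∃ Q : Ideal (𝓞 L), Q.IsPrime ∧ (q : 𝓞 L) ∈ Q ∧
      ∃ σ ∈ Q.inertia Gal(L/ℚ), ∃ x : E, σ (algebraMap E L x) ≠ algebraMap E L x := by
  have h𝔮0 : 𝔮 ≠ ⊥ := by
    intro h
    rw [h, Ideal.mem_bot] at hq𝔮
    exact hq.ne_zero (by exact_mod_cast hq𝔮)
  have h𝔮m : 𝔮.IsMaximal := h𝔮.isMaximal h𝔮0
  obtain ⟨Q, hQm, hQo⟩ := Ideal.exists_maximal_ideal_liesOver_of_isIntegral (S := 𝓞 L) 𝔮
  have hQ : Q.IsPrime := hQm.isPrime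
  have hqQ : (q : 𝓞 L) ∈ Q := by
    have h1 : (q : 𝓞 E) ∈ Q.under (𝓞 E) := by rw [← hQo.over]; exact hq𝔮
    rw [Ideal.mem_comap] at h1
    simpa using h1
  refine ⟨Q, hQ, hqQ, ?_⟩
  by_contra hcon
  push Not at hcon
  have htower := Ideal.ramificationIdx_tower (R := ℤ) 𝔮 Q
  have hcardQ := card_inertia hq hqQ
  have hcardE := card_inertia hq hq𝔮
  have hGal : IsGalois E L := IsGalois.tower_top_of_isGalois ℚ E L
  have h1 : Nat.card (Q.inertia Gal(L/E)) = Q.ramificationIdx (𝓞 E) := by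
    rw [Ideal.card_inertia_eq_ramificationIdxIn 𝔮 Q,
      Ideal.ramificationIdxIn_eq_ramificationIdx _ Q Gal(L/E)]
  -- the map
  let F : Q.inertia Gal(L/ℚ) → Q.inertia Gal(L/E) := fun σ =>
    ⟨{ (σ : Gal(L/ℚ)) with commutes' := fun x => hcon σ σ.2 x }, fun x => σ.2 x⟩
  have hF : Function.Injective F := by
    intro σ τ h
    apply Subtype.ext
    ext x
    have h2 := congrArg (fun ρ : Q.inertia Gal(L/E) => (ρ : Gal(L/E)) x) h
    exact h2
  have h2 : Nat.card (Q.inertia Gal(L/ℚ)) ≤ Nat.card (Q.inertia Gal(L/E)) :=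
    Nat.card_le_card_of_injective F hF
  have hpos : 0 < Q.ramificationIdx (𝓞 E) := Ideal.ramificationIdx_pos _ _
  rw [hcardQ, h1, htower] at h2
  have h3 : 𝔮.ramificationIdx ℤ ≤ 1 := by
    by_contra h4
    push Not at h4
    have : 2 * Q.ramificationIdx (𝓞 E) ≤ 𝔮.ramificationIdx ℤ * Q.ramificationIdx (𝓞 E) :=
      Nat.mul_le_mul_right _ h4
    omega
  rw [← hcardE] at h3
  apply hne
  exact Subgroup.eq_bot_of_card_le _ h3

end Step

end Pool.Agent.H71.KW
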