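import Pool.Agent.H71.KW.Rank

/-!
# The case `ℓ = 2`
-/

set_option autoImplicit false

namespace Pool.Agent.H71.KW

open NumberField Pool.Agent.H68.FA

/-- A complex conjugation. -/
theorem exists_conj : ∃ c : GQ, c * c = 1 ∧
    ∀ (x : AlgebraicClosure ℚ) (d : ℤ), c x = x → x ^ 2 = d → 0 ≤ d := by
  let ι : AlgebraicClosure ℚ →ₐ[ℚ] ℂ := IsAlgClosed.lift
  letI : Algebra (AlgebraicClosure ℚ) ℂ := ι.toRingHom.toAlgebra
  have : IsScalarTower ℚ (AlgebraicClosure ℚ) ℂ :=
    IsScalarTower.of_algebraMap_eq' ι.comp_algebraMap.symm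
  let conj : ℂ ≃ₐ[ℚ] ℂ := Complex.conjAe.restrictScalars ℚ
  let c : GQ := conj.restrictNormal (AlgebraicClosure ℚ)
  have hc : ∀ x, ι (c x) = (starRingEnd ℂ) (ι x) := fun x =>
    AlgEquiv.restrictNormal_commutes conj (AlgebraicClosure ℚ) x
  refine ⟨c, ?_, fun x d hx hd => ?_⟩
  · ext x
    apply ι.toRingHom.injective
    change ι (c (c x)) = ι x
    rw [hc, hc]
    simp
  · have h1 := hc x
    rw [hx] at h1
    obtain ⟨r, hr⟩ := Complex.conj_eq_iff_real.1 h1.symm
    have h2 : (ι x) ^ 2 = (d : ℂ) := by rw [← map_pow, hd]; simp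
    rw [hr] at h2
    have h3 : r ^ 2 = (d : ℝ) := by exact_mod_cast h2
    have h4 : (0 : ℝ) ≤ d := by rw [← h3]; positivity
    exact_mod_cast h4

/-- A quadratic field which is unramified outside `2` and real is `ℚ(√2)`. -/
theorem quadratic {K : Type*} [Field K] [NumberField K] [IsGalois ℚ K]
    (hcard : Nat.card Gal(K/ℚ) = 2)
    (hun : ∀ q : ℕ, q.Prime → q ≠ 2 → ∀ P : Ideal (𝓞 K), P.IsPrime → (q : 𝓞 K) ∈ P →
      P.inertia Gal(K/ℚ) = ⊥)
    (hreal : ∀ (x : K) (d : ℤ), x ^ 2 = d → 0 ≤ d) :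
    ∃ s : K, s ^ 2 = 2 ∧ ∀ a : Gal(K/ℚ), a s = s → a = 1 := by
  have hfin : Finite Gal(K/ℚ) := inferInstance
  have hfaith : FaithfulSMul Gal(K/ℚ) (𝓞 K) :=
    (inferInstance : IsGaloisGroup Gal(K/ℚ) ℤ (𝓞 K)).faithful
  -- the nontrivial automorphism
  obtain ⟨τ, hτ⟩ : ∃ τ : Gal(K/ℚ), τ ≠ 1 := by
    by_contra hcon
    push Not at hcon
    have : Subsingleton Gal(K/ℚ) := ⟨fun a b => (hcon a).trans (hcon b).symm⟩
    have h1 : Nat.card Gal(K/ℚ) ≤ 1 := Finite.card_le_one_iff_subsingleton.2 this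
    omega
  have htwo : ∀ a : Gal(K/ℚ), a = 1 ∨ a = τ := by
    intro a
    by_contra hcon
    push Not at hcon
    haveI := Fintype.ofFinite Gal(K/ℚ)
    classical
    have h1 : ({1, τ, a} : Finset Gal(K/ℚ)).card = 3 := by
      rw [Finset.card_eq_three]
      exact ⟨1, τ, a, hτ.symm, hcon.1.symm, hcon.2.symm, rfl⟩
    have h2 := Finset.card_le_univ ({1, τ, a} : Finset Gal(K/ℚ))
    rw [h1, ← Nat.card_eq_fintype_card, hcard] at h2
    omega
  have hττ : τ * τ = 1 := by
    rcases htwo (τ * τ) with h | h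
    · exact h
    · exact absurd (mul_eq_left.1 h) hτ
  have hfix : ∀ x : 𝓞 K, τ • x = x → ∃ n : ℤ, (n : 𝓞 K) = x := by
    intro x hx
    obtain ⟨n, hn⟩ := Algebra.IsInvariant.isInvariant (A := ℤ) (G := Gal(K/ℚ)) x (fun g => by
      rcases htwo g with h | h
      · rw [h, one_smul]
      · rw [h, hx])
    exact ⟨n, by rw [← hn]; simp⟩
  obtain ⟨y, hy⟩ : ∃ y : 𝓞 K, τ • y ≠ y := by
    by_contra hcon
    push Not at hcon
    apply hτ
    exact FaithfulSMul.eq_of_smul_eq_smul (M := Gal(K/ℚ)) (α := 𝓞 K) (fun x => by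
      rw [hcon x, one_smul])
  set x : 𝓞 K := y - τ • y with hx
  have hxτ : τ • x = -x := by
    rw [hx, smul_sub, smul_smul, hττ, one_smul]; ring
  have hx0 : x ≠ 0 := fun h => hy (sub_eq_zero.1 h).symm
  obtain ⟨D, hD⟩ := hfix (x ^ 2) (by rw [smul_pow', hxτ]; ring)
  have hD0 : D ≠ 0 := by
    intro h
    rw [h, Int.cast_zero] at hD
    exact hx0 (pow_eq_zero_iff (two_ne_zero)|>.1 hD.symm)
  obtain ⟨a, m, hma, hsqf⟩ := Nat.sq_mul_squarefree D.natAbs
  -- the squarefree part
  obtain ⟨d, hd, hdsqf⟩ : ∃ d : ℤ, D = m ^ 2 * d ∧ Squarefree d := by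
    rcases Int.natAbs_eq D with h | h
    · refine ⟨a, ?_, by simpa [Int.squarefree_natCast] using hsqf⟩
      rw [h, ← hma]; push_cast; ring
    · refine ⟨-a, ?_, ?_⟩
      · rw [h, ← hma]; push_cast; ring
      · rw [← Int.squarefree_natAbs]; simpa using hsqf
  have hm0 : (m : ℤ) ≠ 0 := by
    intro h
    rw [h] at hd
    apply hD0
    rw [hd]; ring
  have hmK : ((m : ℕ) : K) ≠ 0 := by
    intro h
    apply hm0
    exact_mod_cast h
  -- the square root
  set s : K := (x : K) / m with hs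
  have hs2 : s ^ 2 = (d : K) := by
    have h1 : ((x : K)) ^ 2 = ((m : K) ^ 2) * d := by
      have h2 : (((D : ℤ) : 𝓞 K) : K) = ((x ^ 2 : 𝓞 K) : K) := congrArg (fun z : 𝓞 K => (z : K)) hD
      have h3 : (((D : ℤ) : 𝓞 K) : K) = (D : K) := by simp
      rw [h3] at h2
      have h4 : ((x ^ 2 : 𝓞 K) : K) = (x : K) ^ 2 := by simp
      rw [h4] at h2
      rw [← h2, hd]; push_cast; ring
    rw [hs, div_pow, h1]
    field_simp
  have hsint : IsIntegral ℤ s := by
    have : IsIntegral ℤ (s ^ 2) := by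
      rw [hs2]
      exact isIntegral_algebraMap (R := ℤ) (A := K) (x := d)
    exact this.of_pow (by norm_num)
  let S : 𝓞 K := ⟨s, hsint⟩
  have hSs : (S : K) = s := rfl
  have hmS : (m : 𝓞 K) * S = x := by
    apply RingOfIntegers.ext
    have h1 : (((m : 𝓞 K) * S : 𝓞 K) : K) = (m : K) * s := by simp [hSs]
    rw [h1, hs]
    field_simp
  have hS2 : S ^ 2 = (d : 𝓞 K) := by
    apply RingOfIntegers.ext
    have h1 : ((S ^ 2 : 𝓞 K) : K) = s ^ 2 := by simp [hSs]
    have h3 : (((d : ℤ) : 𝓞 K) : K) = (d : K) := by simp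
    rw [h1, h3, hs2]
  have hm0' : (m : 𝓞 K) ≠ 0 := by
    intro h
    rw [h, zero_mul] at hmS
    exact hx0 hmS.symm
  have hSτ : τ • S = -S := by
    apply mul_left_cancel₀ hm0'
    have h1 : (m : 𝓞 K) * τ • S = τ • ((m : 𝓞 K) * S) := by
      rw [smul_mul']
      congr 1
      exact (map_natCast (MulSemiringAction.toRingHom Gal(K/ℚ) (𝓞 K) τ) m).symm
    rw [h1, hmS, hxτ, ← hmS]; ring
  have hS0 : S ≠ 0 := by
    intro h
    rw [h, mul_zero] at hmS
    exact hx0 hmS.symm
  have hd0 : d ≠ 0 := hdsqf.ne_zero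
  -- ramification
  have hram : ∀ p : ℕ, p.Prime → (p : ℤ) ∣ d → p = 2 := by
    intro p hp hpd
    by_contra hp2
    have := isMaximal_span hp
    obtain ⟨P, hPm, hPo⟩ := Ideal.exists_maximal_ideal_liesOver_of_isIntegral (S := 𝓞 K)
      (Ideal.span {(p : ℤ)})
    have hPp : P.IsPrime := hPm.isPrime
    have hpP : (p : 𝓞 K) ∈ P := by
      have : (p : ℤ) ∈ P.under ℤ := by
        rw [← hPo.over]
        exact Ideal.mem_span_singleton_self _
      simpa using this
    have hSP : S ∈ P := by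
      apply hPp.mem_of_pow_mem 2
      rw [hS2]
      obtain ⟨e, he⟩ := hpd
      rw [he]
      push_cast
      exact Ideal.mul_mem_right _ _ hpP
    have hτI : τ ∈ P.inertia Gal(K/ℚ) := by
      intro z
      set w : 𝓞 K := z - τ • z with hw
      have hwτ : τ • w = -w := by
        rw [hw, smul_sub, smul_smul, hττ, one_smul]; ring
      obtain ⟨n, hn⟩ := hfix (w * S) (by rw [smul_mul', hwτ, hSτ]; ring)
      obtain ⟨e, he⟩ := hfix (w ^ 2) (by rw [smul_pow', hwτ]; ring)
      have h1 : n ^ 2 = e * d := by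
        have : ((n ^ 2 : ℤ) : 𝓞 K) = ((e * d : ℤ) : 𝓞 K) := by
          push_cast
          rw [hn, he, ← hS2]; ring
        exact_mod_cast this
      have h2 : d ∣ n := by
        have h3 : d ∣ n ^ 2 := by rw [h1]; exact dvd_mul_left _ _
        exact (hdsqf.dvd_pow_iff_dvd (by norm_num)).1 h3
      obtain ⟨n', hn'⟩ := h2
      have h3 : w = S * n' := by
        apply mul_right_cancel₀ hS0
        rw [← hn, hn']
        push_cast
        rw [← hS2]; ring
      have h4 : τ • z - z = -w := by rw [hw]; ring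
      rw [h4, h3]
      exact neg_mem (Ideal.mul_mem_right _ _ hSP)
    rw [hun p hp hp2 P hPp hpP, Subgroup.mem_bot] at hτI
    exact hτ hτI
  have hdpos : 0 ≤ d := hreal s d hs2
  -- `d = 1` or `d = 2`
  have hdN : d.natAbs = 1 ∨ d.natAbs = 2 := by
    by_cases h1 : d.natAbs = 1
    · exact Or.inl h1
    · right
      have hp2 : 2 ∣ d.natAbs := by
        obtain ⟨p, hp, hpd⟩ := Nat.exists_prime_and_dvd h1
        have := hram p hp (Int.natCast_dvd.2 hpd)
        rw [← this]; exact hpd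
      obtain ⟨r, hr⟩ := hp2
      have hsq' : Squarefree d.natAbs := Int.squarefree_natAbs.2 hdsqf
      have hr1 : r = 1 := by
        by_contra hr1
        obtain ⟨p, hp, hpr⟩ := Nat.exists_prime_and_dvd hr1
        have hpd : p ∣ d.natAbs := by rw [hr]; exact hpr.mul_left 2
        have h3 := hram p hp (Int.natCast_dvd.2 hpd)
        rw [h3] at hpr
        obtain ⟨r', hr'⟩ := hpr
        rw [hr, hr'] at hsq'
        have := hsq' 2 ⟨r', by ring⟩
        rw [Nat.isUnit_iff] at this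
        omega
      rw [hr, hr1]
  have hd12 : d = 1 ∨ d = 2 := by
    rcases hdN with h | h
    · left; omega
    · right; omega
  refine ⟨s, ?_, fun g hg => ?_⟩
  · rcases hd12 with h | h
    · exfalso
      rw [h] at hS2
      have h1 : (S - 1) * (S + 1) = 0 := by
        have : S ^ 2 = 1 := by rw [hS2]; simp
        linear_combination this
      have h2 : τ • S = S := by
        rcases mul_eq_zero.1 h1 with h1 | h1
        · rw [sub_eq_zero.1 h1, smul_one]
        · rw [eq_neg_of_add_eq_zero_left h1, smul_neg, smul_one]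
      rw [hSτ] at h2
      have h3 : (2 : 𝓞 K) * S = 0 := by linear_combination -h2
      rcases mul_eq_zero.1 h3 with h3 | h3
      · exact absurd h3 two_ne_zero
      · exact hS0 h3
    · rw [hs2, h]; norm_num
  · rcases htwo g with h | h
    · exact h
    · exfalso
      rw [h] at hg
      have h1 : τ • S = S := RingOfIntegers.ext hg
      rw [hSτ] at h1
      have h3 : (2 : 𝓞 K) * S = 0 := by linear_combination -h1
      rcases mul_eq_zero.1 h3 with h3 | h3
      · exact absurd h3 two_ne_zero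
      · exact hS0 h3

end Pool.Agent.H71.KW
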